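import Mathlib
import Pool.Agent.Lib_helper62.CMP.Graph

/-!
# MP_c6effb_co: Sidorenko's inequality `R(3,G) ≤ k + m` is inherited by joins

Definitions. `dg`, `e2`, `Emb`, `unc`, `Good` and `good_union` are those of `Lib_helper62/CMP/Graph`:
`dg H U x` is the number of neighbours of `x` in `U`, `e2 H U` twice the number of edges in `U`,
`unc H U A` the set of the vertices of `U` which are neither in `A` nor adjacent to `A`.
-/

set_option autoImplicit false

namespace Pool.Agent.SJN

open Finset Classical Pool.Agent.Lib_helper62.CMP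

variable {V W : Type}

/-- triangle free -/
def TF (H : SimpleGraph W) : Prop := ∀ a b c, H.Adj a b → H.Adj b c → ¬ H.Adj a c

/-- independent -/
def Ind (H : SimpleGraph W) (A : Finset W) : Prop := ∀ x ∈ A, ∀ y ∈ A, ¬ H.Adj x y

/-- the vertices of `U` different from `x` and not adjacent to `x` -/
noncomputable def del (H : SimpleGraph W) (U : Finset W) (x : W) : Finset W :=
  U.filter (fun y => y ≠ x ∧ ¬ H.Adj x y)

/-- the potential `α v - β δ + γ + 2` of `U`, where `v = |U| - 2` and `δ = D - 1` with the average
degree `D` of `H[U]` -/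
noncomputable def X (α β γ : ℝ) (H : SimpleGraph W) (U : Finset W) : ℝ :=
  α * ((U.card : ℝ) - 2) - β * ((e2 H U : ℝ) / (U.card : ℝ) - 1) + γ + 2

/-- if the potential of `U` is positive, then `U` contains an independent set `A` of `j` elements
such that at least `X α β γ H U` vertices of `U` are neither in `A` nor adjacent to `A` -/
def Valid (H : SimpleGraph W) (j : ℕ) (α β γ : ℝ) : Prop :=
  ∀ U : Finset W, U.Nonempty → 0 < X α β γ H U →
    ∃ A ⊆ U, A.card = j ∧ Ind H A ∧ X α β γ H U ≤ ((unc H U A).card : ℝ)

/-- closed form criterion: a set of `a` vertices goes first, `b + q` survivors are needed -/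
def Cl (a b q m : ℕ) : Prop := (q + 2 * a + b - 3) * (m + a + b - 2) ^ (a - 1) < m ^ a

/-- scaled recursion: `j` steps from `u` vertices and average degree `D` (both times 256);
the value is 256 times a number of vertices left, or 0 if the recursion breaks down -/
def run : ℕ → ℕ → ℕ → ℕ
  | 0, u, _ => u
  | 1, u, D => u - 256 - D
  | j+2, u, D =>
    if 2 * (D - 256) ≤ u - 256 - D then
      run (j+1) (u - 256 - D) (D - (D - 256) * (D - 256) / (u - 256 - D))
    else 0

/-- criterion by the recursion, `n` vertices of degrees at most `d`; a set of `a` vertices goes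
first, `b + q` survivors are needed -/
def Rn (a b q n d : ℕ) : Prop := 256 * (b + q - 1) < run a (256 * n) (256 * d)

/-- criterion by the subsets of a neighbourhood with `s` elements: a set of `a` vertices goes first,
`b + q` survivors are needed -/
def Stt (a b q n s : ℕ) : Prop :=
  a ≤ s ∧ ∃ c0 c1 : ℕ, (∀ d ≤ s, c0 ≤ (s - d).choose a + c1 * d) ∧
    (b + q - 1) * s.choose a + c1 * s ^ 2 < (s - a) * s.choose a + c0 * (n - s)

/-- `H[S]` is connected: there is an edge between every nonempty proper subset and the rest -/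
def Con (G : SimpleGraph V) (S : Finset V) : Prop :=
  ∀ P ⊆ S, P.Nonempty → P ≠ S → ∃ x ∈ P, ∃ y ∈ S \ P, G.Adj x y

/-- the complement of `H[S]` is connected -/
def Coc (G : SimpleGraph V) (S : Finset V) : Prop :=
  ∀ P ⊆ S, P.Nonempty → P ≠ S → ∃ x ∈ P, ∃ y ∈ S \ P, ¬ G.Adj x y

/-- no induced path on four vertices -/
def P4f (G : SimpleGraph V) : Prop :=
  ∀ a b c d, G.Adj a b → G.Adj b c → G.Adj c d → ¬ G.Adj a c → ¬ G.Adj b d → G.Adj a d

/-- Sidorenko's inequality `R(3,G) ≤ k + m` -/
def Sidorenko (G : SimpleGraph V) : Prop :=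
  ∀ H : SimpleGraph (Fin (Nat.card V + G.edgeSet.ncard)),
    ¬ H.CliqueFree 3 ∨ ∃ f : G →g Hᶜ, Function.Injective f

end Pool.Agent.SJN
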