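import Mathlib
import Pool.Agent.SJN.Defs

/-!
# MP_c6effb_co: Sidorenko's inequality is inherited by joins (project SJN), statements

THEOREM. If `G1` and `G2` satisfy `R(3,G) ≤ k + m`, then so does their join. Hence all cographs.

PLAN. `a = |G1| ≤ b = |G2|`, `p`, `q` the numbers of edges, `k = a + b`, `m = ab + p + q`, `H` triangle
free on `n = k + m` vertices, all degrees `≤ k - 1` (a vertex of degree `k` gives an independent set
of `k` vertices). It is enough to find an independent `a`-set `A` with `b + q` vertices outside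
`A ∪ N(A)` (`G1` goes to `A`, `G2` to the survivors), or the same with the two graphs exchanged.
`A` is chosen one vertex at a time by an averaging argument with a linear potential (`STP`), which
gives the closed form `SRC` and the sharper recursion `TRJ`. `NMS`, `NMM`, `NML`: one of the two
orders always works. Here `v = m + k - 2` and the criterion `Cl` says
`(b + q - 1 + 2a - 2) v^(a-1) < m^a`, that is `b + q - 1 < v (m/v)^a - 2a + 2`.
-/

set_option autoImplicit false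

namespace Pool.Agent.SJN

open Finset Classical Pool.Agent.Lib_helper62.CMP

/-- DEL (60 lines). Proof. First part: `U` is the disjoint union of `{x}`, the neighbours of `x` in `U`
and `del H U x` (`x` is not adjacent to itself).
Second part: let `N = U.filter (H.Adj x)`. Write `e2 H U` as the number of pairs `(y,z)` in `U × U`
with `H.Adj y z`. The pairs with `y ∈ N` (their number is `∑ z ∈ N, dg H U z`), the pairs with
`z ∈ N` (the same number by symmetry) and the pairs with both entries in `del H U x` are disjoint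
sets of pairs: `y, z ∈ N` with `H.Adj y z` would be a triangle with `x`, and `N`, `del H U x` are
disjoint. (Only `≤` is needed.) A convenient way: for `y ∈ U` put
`dg H U y ≥ dg H (del H U x) y + dg H N y`; sum over `y ∈ del H U x`; and
`∑ y ∈ N, dg H U y + ∑ y ∈ U \ N, dg H U y = e2 H U`, where
`∑ y ∈ U \ N, dg H U y ≥ ∑ y ∈ del H U x, dg H (del H U x) y + ∑ y ∈ U \ N, dg H N y` and
`∑ y ∈ U \ N, dg H N y = ∑ z ∈ N, dg H (U \ N) z = ∑ z ∈ N, dg H U z` (double counting, and `z ∈ N`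
has no neighbour in `N`). -/
def S_DEL : Prop := ∀ (W : Type) (H : SimpleGraph W) (U : Finset W) (x : W), TF H → x ∈ U →
  (del H U x).card + 1 + dg H U x = U.card ∧
  e2 H (del H U x) + 2 * ∑ z ∈ U.filter (fun z => H.Adj x z), dg H U z ≤ e2 H U

/-- SUM (60 lines). Sum `S_DEL` over `x ∈ U`: `∑ x ∈ U, (|U| - 1 - dg H U x) = |U|² - |U| - e2 H U`,
and `∑ x ∈ U, ∑ z ∈ U with H.Adj x z, dg H U z = ∑ z ∈ U, dg H U z * dg H U z` (exchange the sums,
`H.Adj` is symmetric). -/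
def S_SUM : Prop := ∀ (W : Type) (H : SimpleGraph W) (U : Finset W), TF H →
  ∑ x ∈ U, (del H U x).card + U.card + e2 H U = U.card ^ 2 ∧
  ∑ x ∈ U, e2 H (del H U x) + 2 * ∑ z ∈ U, (dg H U z) ^ 2 ≤ U.card * e2 H U

/-- STP (200 lines), the main step. Proof. Let `U` be nonempty with `t = X α' β' γ' H U > 0`. Put
`u = |U| ≥ 1`, `E = e2 H U`, `D = E/u`, `v = u - 2`, `δ = D - 1`, `w = u - 1 - D = v - δ` (reals).
(1) `w > 0`. Every `dg H U x ≤ u - 1`, so `E ≤ u (u - 1)` and `w ≥ 0`. If `w = 0`, all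
`dg H U x = u - 1`, so any two distinct vertices of `U` are adjacent and `u ≤ 2` as `H` is triangle
free. If `u = 1`, then `D = 0` and `t = -α' + β' + γ' + 2 ≤ 0`. If `u = 2`, then `D = 1` and
`t = γ' + 2 ≤ 0`. Both are impossible. Also `u ≥ 2` (for `u = 1` we have `D = 0`, `w = 0`), so
`0 ≤ v`, `-1 ≤ δ < v`.
(2) For `x ∈ U` put `u_x = |del H U x|`, `E_x = e2 H (del H U x)`. By `S_SUM`
`∑ u_x = u² - u - E = u w`, hence `∑ u_x² ≥ (∑ u_x)²/u = u w²` (Cauchy, `inner_mul_le_norm_mul_norm`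
or `sq_sum_le_card_mul_sum_sq`), and `∑ E_x ≤ u E - 2 ∑ d_z²` with `d_z = dg H U z`, where
`∑ d_z² ≥ E²/u = u D²` (Cauchy) and `∑ d_z² ≥ ∑ d_z = u D` (natural numbers). CLAIM:
`∑ E_x ≤ u (w D - δ₊²)`, `δ₊ = max δ 0`. If `D ≥ 1`: `w D - δ² = (u-1-D) D - (D-1)² = u D - 2D² + D - 1
≥ u D - 2 D²`. If `D < 1`: `w D = u D - D - D² ≥ u D - 2 D`.
(3) Put `Y_x = α (u_x - 2) u_x - β (E_x - u_x) + (γ + 2) u_x`. If `u_x > 0`, then
`Y_x = u_x * X α β γ H (del H U x)`; if `u_x = 0`, then `E_x = 0` and `Y_x = 0`. By (2) and `α, β ≥ 0`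
`∑ Y_x ≥ α (u w² - 2 u w) - β (u (w D - δ₊²) - u w) + (γ + 2) u w
 = u w (α (w - 2) - β (δ - δ₊²/w) + γ + 2) ≥ u w t` by the hypothesis (★) at `(v, δ)` (note that
`w = v - δ`, `w - 2 = v - δ - 2`). So `∑ x ∈ U, (Y_x - t u_x) ≥ 0`. If every `x ∈ U` with `u_x > 0` had
`X α β γ H (del H U x) < t`, all terms would be `≤ 0` and one `< 0` (as `∑ u_x = u w > 0`):
contradiction. So there is `x ∈ U` with `u_x > 0` and `X α β γ H (del H U x) ≥ t > 0`.
(4) `Valid H j α β γ` for `del H U x` gives `A'`; take `A = insert x A'` (`x ∉ del H U x`): it is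
independent and `unc H U A = unc H (del H U x) A'` (only `⊇` is needed). -/
def S_STP : Prop := ∀ (W : Type) (H : SimpleGraph W) (j : ℕ) (α β γ α' β' γ' : ℝ), TF H →
  0 ≤ α → 0 ≤ β → Valid H j α β γ →
  (∀ v δ : ℝ, 0 ≤ v → -1 ≤ δ → δ < v →
    α' * v - β' * δ + γ' ≤ α * (v - δ - 2) - β * (δ - (max δ 0) ^ 2 / (v - δ)) + γ) →
  γ' ≤ -2 → β' - α' + γ' ≤ -2 → Valid H (j + 1) α' β' γ'

/-- CLO (100 lines). Induction on `j` by `S_STP`.
`Valid H 0 1 0 0` is trivial (`A = ∅`, `X 1 0 0 H U = |U|`).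
`j = 0`: `(α', β', γ') = (1, 1, -2)` from `(1, 0, 0)`; (★) is an equality.
`j → j + 1`: `α = (1-r)^j (1+jr)`, `β = (j+1)(1-r)^j`, `γ = -2(j+1)`. The difference of the two sides of
(★) is `2 - 2α + (1-r)^j (j+1) (r² v - 2 r δ + δ₊²/(v-δ))`. Here `α ≤ (1-r)^j (1+r)^j = (1-r²)^j ≤ 1`
(`one_add_mul_le_pow`), and the last bracket is `≥ 0`: clear if `δ ≤ 0`; if `δ > 0`, then
`δ²/(v-δ) ≥ δ²/v` and `r² v - 2 r δ + δ²/v = (r v - δ)²/v`. Coefficients:
`(1+jr) - (1-r)(1+(j+1)r) = (j+1) r²` and `-(1+jr) - (j+1) + (j+2)(1-r) = -2(j+1) r`.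
Finally `β' - α' + γ' = (j+1)(1-r)^(j+2) - 2(j+2) ≤ -2`. -/
def S_CLO : Prop := ∀ (W : Type) (H : SimpleGraph W) (r : ℝ) (j : ℕ), TF H → 0 ≤ r → r < 1 →
  Valid H (j + 1) ((1 - r) ^ j * (1 + j * r)) ((j + 1) * (1 - r) ^ j) (-2 * (j + 1))

/-- SRC (60 lines). Proof from `S_CLO` with `j = s - 1`, `v = m + k - 2 > 0`, `r = (k-2)/v`, so that
`1 - r = m/v`. With `D ≤ k - 1` (average of the degrees) and `β ≥ 0`:
`X ≥ (1-r)^(s-1) ((1+(s-1)r) v - s (k-2)) - 2s + 2 = (m/v)^(s-1) (v - (k-2)) - 2s + 2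
 = m^s/v^(s-1) - 2s + 2 > N ≥ 0`. The number of survivors is an integer `≥ X > N`. -/
def S_SRC : Prop := ∀ (W : Type) (H : SimpleGraph W) (T : Finset W) (k m s N : ℕ), TF H →
  T.card = k + m → (∀ x ∈ T, dg H T x + 1 ≤ k) → 2 ≤ k → 1 ≤ m → 1 ≤ s →
  (N + 2 * s - 2) * (m + k - 2) ^ (s - 1) < m ^ s →
  ∃ A ⊆ T, A.card = s ∧ Ind H A ∧ N + 1 ≤ (unc H T A).card

/-- TRJ (200 lines). Proof. CORE CLAIM, by induction on `j`: if `0 < run (j+1) u D`, then there are reals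
`α ≥ 0`, `β ≥ 0`, `γ ≤ -2` with `β - α + γ ≤ -2`, `Valid H (j+1) α β γ`,
`run (j+1) u D / 256 ≤ α (u/256 - 2) - β (D/256 - 1) + γ + 2`, and
(INV) `β ≤ α` or `β δ₊ ≤ α w`, where `δ = D/256 - 1`, `δ₊ = max δ 0`, `w = u/256 - 1 - D/256 > 0`.
`j = 0`: `(1, 1, -2)`, by `S_STP` from `Valid H 0 1 0 0` (as in CLO).
`j → j+1`: let `u1 = u - 256 - D` (so `u1 > 0`, `u1/256 = w`; indeed `0 < run (j+1) u1 D1` forces
`u1 > 0`), `D1 = D - (D-256)²/u1` (division of naturals, truncated subtraction `D - 256`), and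
`2 (D - 256) ≤ u1`, that is `σ := δ₊/w ∈ [0, 1/2]`. Let `(α, β, γ)` belong to `(u1, D1)`. Put
`α' = α - β σ²`, `β' = α + β (1 - 2σ - σ²)`, `γ' = γ - 2α`.
(a) (★) for all `(v, δ)`: `δ₊²/(v-δ) ≥ 2σδ - σ²(v-δ)` (for `δ ≥ 0` multiply by `v-δ > 0` and complete the
square; for `δ < 0` the right side is `≤ 0`), then it is an identity.
(b) `γ' ≤ -2`, `β' - α' + γ' = β(1-2σ) + γ - 2α ≤ (β - α + γ) - α ≤ -2`.
(c) CLAIM A: `α ≥ β (σ - σ³/(1-σ))`, i.e. `(1-σ)(α - βσ) + βσ³ ≥ 0`. If `β ≤ α`: clear. If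
`β δ1₊ ≤ α w1` (`δ1 = D1/256 - 1`, `w1 = u1/256 - 1 - D1/256 > 0`, positive because
`0 < run (j+1) u1 D1`): if `δ ≤ 0` then `σ = 0`, clear. If `δ > 0`: `δ1 ≥ δ - σδ = σ(1-σ)w ≥ 0` (floor)
and `w1 = w - 2 - δ1 ≤ w - δ1 ≤ w (1-σ+σ²)`, so `ρ := δ1/w1 ≥ σ(1-σ)/(1-σ+σ²)` and
`α ≥ ρβ`; `(1-σ)(ρ-σ) + σ³ ≥ σ³ (1 - (1-σ)/(1-σ+σ²)) ≥ 0`.
(d) `β' ≥ β (σ - σ³/(1-σ) + 1 - 2σ - σ²) = β (1 - σ - σ² - σ³/(1-σ)) ≥ 0` for `σ ≤ 1/2`. And
`α' - σβ' = (1-σ)(α-βσ) + βσ³ ≥ 0` by Claim A; so `α' ≥ σβ' ≥ 0`, and this is (INV) for `(u, D)`: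
`β' δ₊ = β' σ w ≤ α' w`.
(e) value: at `V = u/256 - 2`, `δ`: `α'V - β'δ + γ' = α (w - 2) - β (δ - δ₊²/w) + γ` (because
`2σδ - σ² w = δ₊²/w` for `σ = δ₊/w`), and `δ - δ₊²/w ≤ D1/256 - 1` (floor), so by induction it is
`≥ run (j+1) u1 D1/256 - 2`.
CONCLUSION: the average degree of `T` is `≤ d` and `|T| ≥ n`, so
`X α β γ H T ≥ α (n-2) - β (d-1) + γ + 2 ≥ run s (256n) (256d)/256 > N ≥ 0`. -/
def S_TRJ : Prop := ∀ (W : Type) (H : SimpleGraph W) (T : Finset W) (n d s N : ℕ), TF H →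
  n ≤ T.card → (∀ x ∈ T, dg H T x ≤ d) → 1 ≤ s →
  256 * N < run s (256 * n) (256 * d) →
  ∃ A ⊆ T, A.card = s ∧ Ind H A ∧ N + 1 ≤ (unc H T A).card

/-- STA (120 lines). Proof. `I = T.filter (H.Adj x)` is independent, `|I| = s`. Sum over all
`A ∈ I.powersetCard a` of `|unc H T A|`: a vertex `y ∈ I` lies in `unc H T A` for the `A` not containing
it, in total `(s - a) C(s,a)`; a vertex `y ∈ T \ I` with `d` neighbours in `I` lies in `unc H T A` for the
`C(s-d,a)` sets `A` without neighbour of `y` (compare `average` in `Lib_helper62/CMP/Graph`), and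
`C(s-d,a) ≥ c0 - c1 d`. The sum of the `d` over `T \ I` is `∑ z ∈ I, dg H (T \ I) z ≤ s * s`. So the sum
of all is `≥ (s-a) C(s,a) + c0 (n-s) - c1 s² > N C(s,a)`, and some `A` has more than `N` survivors. -/
def S_STA : Prop := ∀ (W : Type) (H : SimpleGraph W) (T : Finset W) (x : W) (n s a N c0 c1 : ℕ),
  TF H → T.card = n → x ∈ T → dg H T x = s → (∀ y ∈ T, dg H T y ≤ s) → a ≤ s →
  (∀ d ≤ s, c0 ≤ (s - d).choose a + c1 * d) →
  N * s.choose a + c1 * s ^ 2 < (s - a) * s.choose a + c0 * (n - s) →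
  ∃ A ⊆ T, A.card = a ∧ Ind H A ∧ N + 1 ≤ (unc H T A).card

/-- PLC (80 lines). First part: as at the end of `main` in `Lib_helper62/CMP/Graph.lean`: put `S` on `A`
(`exists_inj`) and `S'` on `unc H T A`. Second part: for `x ∈ S`,
`dg G (S ∪ S') x = dg G S x + |S'|`, and symmetrically. Third part: `dg G S x ≤ |S| - 1`. -/
def S_PLC : Prop :=
  (∀ (V W : Type) [Nonempty W] (G : SimpleGraph V) (H : SimpleGraph W) (S S' : Finset V)
    (T A : Finset W) (m' : ℕ), Disjoint S S' → A ⊆ T → A.card = S.card → Ind H A →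
    S'.card + m' ≤ (unc H T A).card →
    (∀ T' : Finset W, S'.card + m' ≤ T'.card → Emb G H S' T') → Emb G H (S ∪ S') T) ∧
  (∀ (V : Type) (G : SimpleGraph V) (S S' : Finset V), Disjoint S S' →
    (∀ x ∈ S, ∀ y ∈ S', G.Adj x y) →
    e2 G (S ∪ S') = e2 G S + e2 G S' + 2 * (S.card * S'.card)) ∧
  (∀ (V : Type) (G : SimpleGraph V) (S : Finset V), e2 G S ≤ S.card * (S.card - 1))

/-- one of the five criteria -/
def Num (a b p q : ℕ) : Prop :=
  Cl a b q (a * b + p + q) ∨ Cl b a p (a * b + p + q) ∨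
  Rn a b q (a + b + (a * b + p + q)) (a + b - 1) ∨
  Rn b a p (a + b + (a * b + p + q)) (a + b - 1) ∨
  (Rn b a p (a + b + (a * b + p + q)) (a + b - 2) ∧
    Stt b a p (a + b + (a * b + p + q)) (a + b - 1))

/-- NMS (150 lines): `a + b ≤ 29`, by the kernel. The program (14 s, `decide +kernel`) and its
correctness proof are described in `Pool/Agent/SJN/NMS_prog.txt`. -/
def S_NMS : Prop := ∀ a b p q : ℕ, 2 ≤ a → a ≤ b → a + b ≤ 29 → 2 * p ≤ a * (a - 1) →
  2 * q ≤ b * (b - 1) → Num a b p q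

/-- NMM (150 lines): `30 ≤ a + b ≤ 99`, by the kernel (3 s). The program and its correctness proof
are described in `Pool/Agent/SJN/NMM_prog.txt`. -/
def S_NMM : Prop := ∀ a b p q : ℕ, 2 ≤ a → a ≤ b → 30 ≤ a + b → a + b ≤ 99 →
  2 * p ≤ a * (a - 1) → 2 * q ≤ b * (b - 1) →
  Cl a b q (a * b + p + q) ∨ Cl b a p (a * b + p + q)

/-- NML (300 lines): calculus for `a + b ≥ 100`. The proof is written in
`Pool/Agent/SJN/NML_proof.txt`. -/
def S_NML : Prop := ∀ a b p q : ℕ, 2 ≤ a → a ≤ b → 100 ≤ a + b →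
  Cl a b q (a * b + p + q) ∨ Cl b a p (a * b + p + q)

/-- JOI (150 lines), from `S_SRC`, `S_TRJ`, `S_STA`, `S_PLC`, `S_NMS`, `S_NMM`, `S_NML`.
Proof. Let `a = |S|`, `b = |S'|`; by symmetry (`Disjoint`, `union_comm`, `Adj.symm`) `a ≤ b`. Let `p`, `q`
be the numbers of edges from `Good` (`e2 G S = 2p`, `e2 G S' = 2q`); `2p ≤ a(a-1)`, `2q ≤ b(b-1)`,
`e2 G (S ∪ S') = 2m` with `m = ab + p + q`. Given `T` with `|T| ≥ a + b + m` shrink it to `|T| = k + m`,
`k = a + b` (`emb_mono`). If `a = 0`: `S = ∅`. If some `x ∈ T` has `dg H T x ≥ k`: `emb_indep` in the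
neighbourhood. Otherwise `dg H T x + 1 ≤ k` for all `x ∈ T`. If `a = 1` take `A = {x}`, any `x ∈ T`:
`p = 0`, and `|unc H T {x}| = k + m - 1 - dg H T x ≥ m = b + q`; place `S` on `A`, `S'` on the rest.
If `a ≥ 2` use `Num a b p q` (from `S_NMS`, `S_NMM` or `S_NML`):
`Cl a b q m`: `S_SRC` with `s = a`, `N = b + q - 1` (`N + 2a - 2 = q + 2a + b - 3`), place `S` first.
`Cl b a p m`: `s = b`, `N = a + p - 1`, place `S'` first (use `S' ∪ S`).
`Rn a b q (k+m) (k-1)`, `Rn b a p (k+m) (k-1)`: the same with `S_TRJ`, `d = k - 1`.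
Last case: if some `x ∈ T` has `dg H T x = k - 1`: `S_STA` with `s = k - 1`, the set size `b`,
`N = a + p - 1`; otherwise all degrees are `≤ k - 2` and `S_TRJ` applies with `d = k - 2`. -/
def S_JOI : Prop := ∀ (V W : Type) [Nonempty W] (G : SimpleGraph V) (H : SimpleGraph W)
  (S S' : Finset V), TF H → Disjoint S S' → (∀ x ∈ S, ∀ y ∈ S', G.Adj x y) →
  Good G H S → Good G H S' → Good G H (S ∪ S')

/-- IND (60 lines), from `S_JOI` and `good_union`. Strong induction on `|S|`. `S = ∅`: trivial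
(`m = 0`, any function). If not `Con G S`, there is `P ⊆ S`, nonempty, `≠ S`, without edges to
`S \ P`: `good_union`. If not `Coc G S`, there is such a `P` completely joined to `S \ P`: `S_JOI`.
Otherwise the hypothesis. -/
def S_IND : Prop := ∀ (V W : Type) [Nonempty W] (G : SimpleGraph V) (H : SimpleGraph W), TF H →
  ∀ S : Finset V, (∀ S' ⊆ S, S'.Nonempty → Con G S' → Coc G S' → Good G H S') → Good G H S

/-- P4F (120 lines). Strong induction on `|S|` (for all `G` with `P4f G`). Suppose `|S| ≥ 2`, `Con G S` and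
`Coc G S`. If `S = {x, y}`, then `P = {x}` contradicts `Con` or `Coc`. Let `|S| ≥ 3`, `v ∈ S`,
`S1 = S.erase v`, `|S1| ≥ 2`; by induction not both `Con G S1`, `Coc G S1`.
Case 1: not `Con G S1`: `P ⊆ S1` nonempty, `Q = S1 \ P` nonempty, no edges between `P` and `Q`. `Con G S`
for `P` (and for `Q`) gives a neighbour of `v` in `P` (in `Q`). `Coc G S` for `{v}` gives a non-neighbour
`w ∈ S1` of `v`; say `w ∈ P` (symmetric in `P`, `Q`). `Con G S` for `P.filter (¬ G.Adj v ·)` gives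
`y ∈ P`, `¬ G.Adj v y`, adjacent to some `z ∈ S` outside this set: `z ≠ v`, `z ∉ Q`, so `z ∈ P`,
`G.Adj v z`. With `u ∈ Q`, `G.Adj v u`: `y - z - v - u` contradicts `P4f` (`y`, `u` not adjacent).
Case 2: not `Coc G S1`: apply Case 1 to `Gᶜ` (`P4f Gᶜ` holds: a bad `a, b, c, d` for `Gᶜ` is the bad
`b, d, a, c` for `G`; `Con Gᶜ S ↔ Coc G S`). So it is best to prove Case 1 as a lemma for all `G`. -/
def S_P4F : Prop := ∀ (V : Type) (G : SimpleGraph V) (S : Finset V), P4f G → 2 ≤ S.card →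
  ¬ (Con G S ∧ Coc G S)

/-- TRA (150 lines): translations. (1) `→`: for `T` with `|T| ≥ |V| + e` choose an injection of
`Fin (|V| + e)` into `T` and apply the hypothesis to `H.comap`; `2 e = e2 G univ` (`e2_univ` in
`Results/MP_c6effb_co/CompleteMultipartite.lean`, copy it). `←`: as in `result` of
`CompleteMultipartite` (same file). (2) the same for `S`; `e2 G S = 2 * (G.induce S).edgeSet.ncard` is
`E2_eq` in `Pool/Agent/SD95/Out.lean` (copy it), `Nat.card S = S.card`. (3), (4): `Con G S` implies that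
`G.induce S` is connected (consider the set of the vertices reachable from a fixed one); (5): an
induced `pathGraph 4` is the same as `a, b, c, d` with `¬ P4f` (the four vertices are
automatically distinct). -/
def S_TRA : Prop :=
  (∀ (V : Type) [Fintype V] (G : SimpleGraph V), Sidorenko G ↔
    ∀ (W : Type) [Nonempty W] (H : SimpleGraph W), TF H → Good G H univ) ∧
  (∀ (V : Type) [Fintype V] (G : SimpleGraph V) (S : Finset V),
    Sidorenko (G.induce (S : Set V)) ↔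
    ∀ (W : Type) [Nonempty W] (H : SimpleGraph W), TF H → Good G H S) ∧
  (∀ (V : Type) (G : SimpleGraph V) (S : Finset V), S.Nonempty → Con G S →
    (G.induce (S : Set V)).Connected) ∧
  (∀ (V : Type) (G : SimpleGraph V) (S : Finset V), S.Nonempty → Coc G S →
    (G.induce (S : Set V))ᶜ.Connected) ∧
  (∀ (V : Type) (G : SimpleGraph V), ¬ (SimpleGraph.pathGraph 4).IsIndContained G → P4f G)

/-- FIN (80 lines), from `S_JOI`, `S_IND`, `S_P4F`, `S_TRA`: the result file. First part: `S.toFinset`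
and its complement. Second part: `S_IND` with `S = univ`. Third part: `S_IND` and `S_P4F`: a set with
`Con` and `Coc` has one element, `Good` is trivial. -/
def S_FIN : Prop :=
  (∀ (V : Type) [Finite V] (G : SimpleGraph V) (S : Set V), (∀ x ∈ S, ∀ y ∉ S, G.Adj x y) →
    Sidorenko (G.induce S) → Sidorenko (G.induce Sᶜ) → Sidorenko G) ∧
  (∀ (V : Type) [Finite V] (G : SimpleGraph V), (∀ S : Set V, (G.induce S).Connected →
    (G.induce S)ᶜ.Connected → Sidorenko (G.induce S)) → Sidorenko G) ∧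
  (∀ (V : Type) [Finite V] (G : SimpleGraph V),
    ¬ (SimpleGraph.pathGraph 4).IsIndContained G → Sidorenko G)

end Pool.Agent.SJN
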