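import Mathlib
import Pool.Agent.SJN.Stmts

/-!
# SJN: the module CLO
-/

set_option autoImplicit false

namespace Pool.Agent.SJN

open Finset Classical Pool.Agent.Lib_helper62.CMP

namespace CLO

theorem valid_zero {W : Type} (H : SimpleGraph W) : Valid H 0 1 0 0 := by
  intro U _ _
  refine ⟨∅, Finset.empty_subset U, Finset.card_empty, ?_, ?_⟩
  · intro x hx
    exact absurd hx (Finset.notMem_empty x)
  · have h1 : unc H U ∅ = U := by
      unfold unc
      apply Finset.filter_true_of_mem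
      intro v _ p hp
      exact absurd hp (Finset.notMem_empty p)
    rw [h1, X]
    linarith

theorem br {r v δ : ℝ} (hr : 0 ≤ r) (hv : 0 ≤ v) (hδv : δ < v) :
    0 ≤ r ^ 2 * v - 2 * r * δ + (max δ 0) ^ 2 / (v - δ) := by
  have hw : 0 < v - δ := by linarith
  rcases le_or_gt δ 0 with hδ | hδ
  · rw [max_eq_right hδ]
    have h1 : 0 ≤ r ^ 2 * v := mul_nonneg (sq_nonneg r) hv
    have h2 : 0 ≤ r * (-δ) := mul_nonneg hr (by linarith)
    have h3 : (0 : ℝ) ^ 2 / (v - δ) = 0 := by simp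
    rw [h3]
    nlinarith
  · rw [max_eq_left hδ.le]
    have h1 : 2 * r * δ - r ^ 2 * v ≤ δ ^ 2 / (v - δ) := by
      rw [le_div_iff₀ hw]
      have h2 : 0 ≤ (δ - r * (v - δ)) ^ 2 := sq_nonneg _
      have h3 : 0 ≤ r ^ 2 * δ * (v - δ) := mul_nonneg (mul_nonneg (sq_nonneg r) hδ.le) hw.le
      nlinarith
    linarith

theorem al_le (r : ℝ) (j : ℕ) (hr : 0 ≤ r) (hr1 : r < 1) : (1 - r) ^ j * (1 + j * r) ≤ 1 := by
  have h1 : 1 + (j : ℝ) * r ≤ (1 + r) ^ j := one_add_mul_le_pow (by linarith) j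
  have h2 : 0 ≤ (1 - r) ^ j := pow_nonneg (by linarith) j
  calc (1 - r) ^ j * (1 + j * r) ≤ (1 - r) ^ j * (1 + r) ^ j := mul_le_mul_of_nonneg_left h1 h2
    _ = (1 - r ^ 2) ^ j := by rw [← mul_pow]; congr 1; ring
    _ ≤ 1 := pow_le_one₀ (by nlinarith) (by nlinarith)

end CLO

theorem t_CLO (hSTP : S_STP) : S_CLO := by
  intro W H r j hTF hr hr1
  induction j with
  | zero =>
    have h := hSTP W H 0 1 0 0 1 1 (-2) hTF zero_le_one le_rfl (CLO.valid_zero H)
      (by intro v δ _ _ _; linarith) le_rfl (by norm_num)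
    have e1 : (1 - r) ^ 0 * (1 + ((0 : ℕ) : ℝ) * r) = 1 := by simp
    have e2' : (((0 : ℕ) : ℝ) + 1) * (1 - r) ^ 0 = 1 := by simp
    have e3 : (-2 : ℝ) * (((0 : ℕ) : ℝ) + 1) = -2 := by simp
    rw [e1, e2', e3]
    exact h
  | succ j ih =>
    have hs : 0 ≤ (1 - r) ^ j := pow_nonneg (by linarith) j
    have hj : (0 : ℝ) ≤ (j : ℝ) := Nat.cast_nonneg j
    refine hSTP W H (j + 1) _ _ _ _ _ _ hTF ?_ ?_ ih ?_ ?_ ?_
    · exact mul_nonneg hs (by nlinarith)
    · exact mul_nonneg (by linarith) hs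
    · intro v δ hv _ hδv
      have h1 := CLO.br (r := r) hr hv hδv
      have h2 := CLO.al_le r j hr hr1
      have h3 : 0 ≤ (1 - r) ^ j * ((j : ℝ) + 1) *
          (r ^ 2 * v - 2 * r * δ + (max δ 0) ^ 2 / (v - δ)) :=
        mul_nonneg (mul_nonneg hs (by linarith)) h1
      push_cast
      rw [pow_succ]
      generalize (1 - r) ^ j = s at *
      generalize (max δ 0) ^ 2 / (v - δ) = q at *
      nlinarith
    · push_cast
      nlinarith
    · have h4 : (1 - r) ^ (j + 1) * (1 - r) ≤ 1 := by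
        rw [← pow_succ]
        exact pow_le_one₀ (by linarith) (by linarith)
      have h5 : ((j : ℝ) + 1) * ((1 - r) ^ (j + 1) * (1 - r)) ≤ ((j : ℝ) + 1) * 1 :=
        mul_le_mul_of_nonneg_left h4 (by linarith)
      push_cast
      generalize (1 - r) ^ (j + 1) = s at *
      nlinarith

end Pool.Agent.SJN
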