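import Pool.Agent.SJN.Stmts

/-!
# Module DEL of the project SJN: deleting a vertex and its neighbours
-/

set_option autoImplicit false

namespace Pool.Agent.SJN

open Finset Classical Pool.Agent.Lib_helper62.CMP

namespace DEL

variable {W : Type}

theorem dg_eq (H : SimpleGraph W) (A : Finset W) (y : W) :
    dg H A y = ∑ z ∈ A, if H.Adj y z then 1 else 0 := by
  unfold dg
  rw [Finset.card_filter]

theorem dg_mono (H : SimpleGraph W) {A B : Finset W} (h : A ⊆ B) (y : W) :
    dg H A y ≤ dg H B y := by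
  unfold dg
  exact Finset.card_le_card (Finset.filter_subset_filter _ h)

theorem dg_sdiff (H : SimpleGraph W) {A B : Finset W} (h : A ⊆ B) (y : W) :
    dg H (B \ A) y + dg H A y = dg H B y := by
  rw [dg_eq, dg_eq, dg_eq, Finset.sum_sdiff h]

theorem swap (H : SimpleGraph W) (A B : Finset W) :
    ∑ y ∈ A, dg H B y = ∑ z ∈ B, dg H A z := by
  simp only [dg_eq]
  rw [Finset.sum_comm]
  simp only [H.adj_comm]

theorem first (H : SimpleGraph W) (U : Finset W) (x : W) (hx : x ∈ U) :
    (del H U x).card + 1 + dg H U x = U.card := by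
  have h1 : U.filter (fun y => ¬ H.Adj x y) = insert x (del H U x) := by
    ext y
    simp only [del, Finset.mem_filter, Finset.mem_insert]
    constructor
    · rintro ⟨h, h'⟩
      by_cases hy : y = x
      · exact Or.inl hy
      · exact Or.inr ⟨h, hy, h'⟩
    · rintro (h | h)
      · subst h
        exact ⟨hx, H.loopless.irrefl y⟩
      · exact ⟨h.1, h.2.2⟩
  have h2 : x ∉ del H U x := by simp [del]
  have h3 := Finset.card_filter_add_card_filter_not (s := U) (fun y => H.Adj x y)
  rw [h1, Finset.card_insert_of_notMem h2] at h3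
  unfold dg
  omega

theorem second (H : SimpleGraph W) (U : Finset W) (x : W) (hH : TF H) :
    e2 H (del H U x) + 2 * ∑ z ∈ U.filter (fun z => H.Adj x z), dg H U z ≤ e2 H U := by
  set N := U.filter (fun z => H.Adj x z) with hN
  have hNU : N ⊆ U := Finset.filter_subset _ _
  have hDN : del H U x ⊆ U \ N := by
    intro y hy
    simp only [del, Finset.mem_filter] at hy
    simp only [hN, Finset.mem_sdiff, Finset.mem_filter, not_and]
    exact ⟨hy.1, fun _ => hy.2.2⟩
  have h0 : ∀ z ∈ N, dg H N z = 0 := by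
    intro z hz
    unfold dg
    rw [Finset.card_eq_zero, Finset.filter_eq_empty_iff]
    intro y hy hzy
    rw [hN, Finset.mem_filter] at hy hz
    exact hH x z y hz.2 hzy hy.2
  have h1 : e2 H U = ∑ y ∈ U \ N, dg H U y + ∑ y ∈ N, dg H U y := by
    unfold e2
    rw [Finset.sum_sdiff hNU]
  have h2 : ∑ y ∈ U \ N, dg H U y = ∑ y ∈ U \ N, dg H (U \ N) y + ∑ y ∈ U \ N, dg H N y := by
    rw [← Finset.sum_add_distrib]
    exact Finset.sum_congr rfl fun y _ => (dg_sdiff H hNU y).symm
  have h3 : ∑ y ∈ U \ N, dg H N y = ∑ z ∈ N, dg H U z := by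
    rw [swap]
    refine Finset.sum_congr rfl fun z hz => ?_
    have h := dg_sdiff H hNU z
    rw [h0 z hz] at h
    exact h
  have h4 : e2 H (del H U x) ≤ ∑ y ∈ U \ N, dg H (U \ N) y := by
    unfold e2
    calc ∑ y ∈ del H U x, dg H (del H U x) y ≤ ∑ y ∈ del H U x, dg H (U \ N) y :=
          Finset.sum_le_sum fun y _ => dg_mono H hDN y
      _ ≤ ∑ y ∈ U \ N, dg H (U \ N) y := Finset.sum_le_sum_of_subset hDN
  omega

end DEL

theorem t_DEL : S_DEL := fun _ H U x hH hx => ⟨DEL.first H U x hx, DEL.second H U x hH⟩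

end Pool.Agent.SJN
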