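import Mathlib
import Pool.Agent.SJN.Stmts

/-! # FIN: the result of the project SJN (MP_c6effb_co) -/

set_option autoImplicit false

namespace Pool.Agent.SJN

open Finset Classical Pool.Agent.Lib_helper62.CMP

namespace FIN

theorem good_single {V W : Type} [Nonempty W] (G : SimpleGraph V) (H : SimpleGraph W)
    (S : Finset V) (h1 : S.Nonempty) (h2 : S.card < 2) : Good G H S := by
  have h3 : 0 < S.card := Finset.card_pos.2 h1
  have h4 : S.card = 1 := by omega
  obtain ⟨x, hx⟩ := Finset.card_eq_one.1 h4
  subst hx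
  refine ⟨0, ?_, ?_⟩
  · unfold e2 dg
    rw [Finset.sum_singleton, Finset.filter_singleton, if_neg (G.loopless.irrefl x)]
    rfl
  · intro T hT
    rw [Finset.card_singleton] at hT
    obtain ⟨y, hy⟩ := Finset.card_pos.1 (show 0 < T.card by omega)
    refine ⟨fun _ => y, ?_, fun _ _ => hy, ?_⟩
    · intro a ha b hb _
      rw [Finset.coe_singleton, Set.mem_singleton_iff] at ha hb
      rw [ha, hb]
    · intro a ha b hb hab
      rw [Finset.mem_singleton] at ha hb
      rw [ha, hb] at hab
      exact absurd hab (G.loopless.irrefl x)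

end FIN

theorem t_FIN (hJOI : S_JOI) (hIND : S_IND) (hP4F : S_P4F) (hTRA : S_TRA) : S_FIN := by
  obtain ⟨t1, t2, t3, t4, t5⟩ := hTRA
  refine ⟨?_, ?_, ?_⟩
  · intro V _ G S hS h1 h2
    have : Fintype V := Fintype.ofFinite V
    have hA : ((S.toFinset : Finset V) : Set V) = S := Set.coe_toFinset S
    have hB : ((Sᶜ.toFinset : Finset V) : Set V) = Sᶜ := Set.coe_toFinset Sᶜ
    rw [← hA] at h1
    rw [← hB] at h2
    rw [t1]
    intro W _ H hH
    have g1 := (t2 V G S.toFinset).1 h1 W H hH
    have g2 := (t2 V G Sᶜ.toFinset).1 h2 W H hH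
    have hd : Disjoint S.toFinset Sᶜ.toFinset := by
      rw [Finset.disjoint_left]
      intro x hx hx'
      rw [Set.mem_toFinset] at hx hx'
      exact hx' hx
    have hj := hJOI V W G H S.toFinset Sᶜ.toFinset hH hd (by
      intro x hx y hy
      rw [Set.mem_toFinset] at hx hy
      exact hS x hx y hy) g1 g2
    have hu : S.toFinset ∪ Sᶜ.toFinset = Finset.univ := by
      ext x
      rw [Finset.mem_union, Set.mem_toFinset, Set.mem_toFinset]
      constructor
      · intro _
        exact Finset.mem_univ x
      · intro _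
        exact Classical.em (x ∈ S)
    rw [← hu]
    exact hj
  · intro V _ G hS
    have : Fintype V := Fintype.ofFinite V
    rw [t1]
    intro W _ H hH
    apply hIND V W G H hH
    intro S' _ hne hc hcc
    exact (t2 V G S').1 (hS _ (t3 V G S' hne hc) (t4 V G S' hne hcc)) W H hH
  · intro V _ G hG
    have : Fintype V := Fintype.ofFinite V
    have hp : P4f G := t5 V G hG
    rw [t1]
    intro W _ H hH
    apply hIND V W G H hH
    intro S' _ hne hc hcc
    apply FIN.good_single G H S' hne
    by_contra hcard
    exact hP4F V G S' hp (not_lt.1 hcard) ⟨hc, hcc⟩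

end Pool.Agent.SJN
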