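import Pool.Agent.SJN.Stmts

set_option autoImplicit false

namespace Pool.Agent.SJN

open Finset Classical Pool.Agent.Lib_helper62.CMP

theorem t_IND (hJOI : S_JOI) : S_IND := by
  intro V W _ G H hH S
  induction S using Finset.strongInduction with
  | H S ih =>
    intro hyp
    rcases S.eq_empty_or_nonempty with rfl | hne
    · refine ⟨0, by simp [e2], fun T _ => ⟨fun _ => Classical.arbitrary W, by simp, by simp, by simp⟩⟩
    by_cases h1 : Con G S
    · by_cases h2 : Coc G S
      · exact hyp S (Finset.Subset.refl S) hne h1 h2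
      · unfold Coc at h2
        push Not at h2
        obtain ⟨P, hP, hPn, hPS, h3⟩ := h2
        have hPss : P ⊂ S := Finset.ssubset_iff_subset_ne.2 ⟨hP, hPS⟩
        have hQ : S \ P ⊂ S := by
          refine Finset.ssubset_iff_subset_ne.2 ⟨Finset.sdiff_subset, fun h => ?_⟩
          obtain ⟨x, hx⟩ := hPn
          have h4 : x ∈ S \ P := by rw [h]; exact hP hx
          exact (Finset.mem_sdiff.1 h4).2 hx
        have h5 := hJOI V W G H P (S \ P) hH Finset.disjoint_sdiff h3
          (ih P hPss fun S' hS' => hyp S' (hS'.trans hP))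
          (ih (S \ P) hQ fun S' hS' => hyp S' (hS'.trans Finset.sdiff_subset))
        rwa [Finset.union_sdiff_of_subset hP] at h5
    · unfold Con at h1
      push Not at h1
      obtain ⟨P, hP, hPn, hPS, h3⟩ := h1
      have hPss : P ⊂ S := Finset.ssubset_iff_subset_ne.2 ⟨hP, hPS⟩
      have hQ : S \ P ⊂ S := by
        refine Finset.ssubset_iff_subset_ne.2 ⟨Finset.sdiff_subset, fun h => ?_⟩
        obtain ⟨x, hx⟩ := hPn
        have h4 : x ∈ S \ P := by rw [h]; exact hP hx
        exact (Finset.mem_sdiff.1 h4).2 hx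
      have h5 := good_union (H := H) (Finset.disjoint_sdiff (s := P) (t := S)) h3
        (ih P hPss fun S' hS' => hyp S' (hS'.trans hP))
        (ih (S \ P) hQ fun S' hS' => hyp S' (hS'.trans Finset.sdiff_subset))
      rwa [Finset.union_sdiff_of_subset hP] at h5

end Pool.Agent.SJN
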