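import Pool.Agent.SJN.Stmts

/-!
# SJN, module JOI: the inequality is inherited by joins (MP_c6effb_co)
-/

set_option autoImplicit false

namespace Pool.Agent.SJN

open Finset Classical Pool.Agent.Lib_helper62.CMP

namespace JOI

/-- the statement for `S.card ≤ S'.card` -/
theorem half (hSRC : S_SRC) (hTRJ : S_TRJ) (hSTA : S_STA) (hPLC : S_PLC) (hNMS : S_NMS)
    (hNMM : S_NMM) (hNML : S_NML) {V W : Type} [Nonempty W] (G : SimpleGraph V)
    (H : SimpleGraph W) (S S' : Finset V) (hH : TF H) (hd : Disjoint S S')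
    (hj : ∀ x ∈ S, ∀ y ∈ S', G.Adj x y) (hG : Good G H S) (hG' : Good G H S')
    (hle : S.card ≤ S'.card) : Good G H (S ∪ S') := by
  obtain ⟨hP1, hP2, hP3⟩ := hPLC
  rcases S.eq_empty_or_nonempty with rfl | hne
  · rw [Finset.empty_union]
    exact hG'
  obtain ⟨p, hp, hE⟩ := hG
  obtain ⟨q, hq, hE'⟩ := hG'
  have hap : 2 * p ≤ S.card * (S.card - 1) := hp ▸ hP3 V G S
  have hbq : 2 * q ≤ S'.card * (S'.card - 1) := hq ▸ hP3 V G S'
  have ha1 : 1 ≤ S.card := Finset.card_pos.2 hne
  have hcu : (S ∪ S').card = S.card + S'.card := Finset.card_union_of_disjoint hd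
  refine ⟨S.card * S'.card + p + q, ?_, fun T hT => ?_⟩
  · rw [hP2 V G S S' hd hj, hp, hq]
    ring
  rw [hcu] at hT
  obtain ⟨T', hT'T, hT'⟩ := Finset.exists_subset_card_eq hT
  apply emb_mono hT'T
  clear hT hT'T T
  by_cases hN : ∃ v ∈ T', S.card + S'.card ≤ dg H T' v
  · obtain ⟨v, hv, hvk⟩ := hN
    apply emb_mono (Finset.filter_subset (fun y => H.Adj v y) T')
    apply emb_indep
    · intro x hx y hy
      exact hH x v y (Finset.mem_filter.1 hx).2.symm (Finset.mem_filter.1 hy).2
    · rw [hcu]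
      exact hvk
  push Not at hN
  -- `S` first
  have pl1 : (∃ A ⊆ T', A.card = S.card ∧ Ind H A ∧ S'.card + q ≤ (unc H T' A).card) →
      Emb G H (S ∪ S') T' := by
    rintro ⟨A, hA, hAc, hAi, hAu⟩
    exact hP1 V W G H S S' T' A q hd hA hAc hAi hAu hE'
  -- `S'` first
  have pl2 : (∃ A ⊆ T', A.card = S'.card ∧ Ind H A ∧ S.card + p ≤ (unc H T' A).card) →
      Emb G H (S ∪ S') T' := by
    rintro ⟨A, hA, hAc, hAi, hAu⟩
    rw [Finset.union_comm]
    exact hP1 V W G H S' S T' A p hd.symm hA hAc hAi hAu hE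
  have hb1 : 1 ≤ S'.card := ha1.trans hle
  rcases Nat.lt_or_ge 1 S.card with ha2 | ha2
  swap
  · -- `a = 1`
    have ha : S.card = 1 := le_antisymm ha2 ha1
    have hp0 : p = 0 := by
      rw [ha] at hap
      omega
    apply pl1
    obtain ⟨x, hx⟩ : T'.Nonempty := by
      rw [← Finset.card_pos, hT']
      omega
    refine ⟨{x}, Finset.singleton_subset_iff.2 hx, ?_, ?_, ?_⟩
    · rw [Finset.card_singleton, ha]
    · intro y hy z hz
      rw [Finset.mem_singleton] at hy hz
      subst hy
      subst hz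
      exact H.loopless.irrefl _
    · have e2 : T' ⊆ insert x (T'.filter (fun y => H.Adj x y)) ∪ unc H T' {x} := by
        intro y hy
        rw [Finset.mem_union, Finset.mem_insert, Finset.mem_filter]
        by_cases h4 : y = x
        · exact Or.inl (Or.inl h4)
        · by_cases h5 : H.Adj x y
          · exact Or.inl (Or.inr ⟨hy, h5⟩)
          · right
            rw [unc, Finset.mem_filter]
            refine ⟨hy, fun r hr => ?_⟩
            rw [Finset.mem_singleton] at hr
            subst hr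
            exact ⟨h4, fun h6 => h5 h6.symm⟩
      have e3 := Finset.card_le_card e2
      have e4 := Finset.card_union_le (insert x (T'.filter (fun y => H.Adj x y)))
        (unc H T' {x})
      have e5 := Finset.card_insert_le x (T'.filter (fun y => H.Adj x y))
      have e6 := hN x hx
      unfold dg at e6
      rw [hT', ha, hp0, one_mul] at e3
      rw [ha] at e6
      omega
  -- `a ≥ 2`
  have hnum : Num S.card S'.card p q := by
    rcases Nat.lt_or_ge (S.card + S'.card) 30 with h1 | h1
    · exact hNMS _ _ _ _ ha2 hle (by omega) hap hbq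
    · rcases Nat.lt_or_ge (S.card + S'.card) 100 with h2 | h2
      · rcases hNMM _ _ _ _ ha2 hle h1 (by omega) hap hbq with h3 | h3
        · exact Or.inl h3
        · exact Or.inr (Or.inl h3)
      · rcases hNML _ _ p q ha2 hle h2 with h3 | h3
        · exact Or.inl h3
        · exact Or.inr (Or.inl h3)
  have hab : 1 ≤ S.card * S'.card := Nat.mul_pos ha1 hb1
  have hdeg : ∀ x ∈ T', dg H T' x + 1 ≤ S.card + S'.card := fun x hx => hN x hx
  have hdeg' : ∀ x ∈ T', dg H T' x ≤ S.card + S'.card - 1 := fun x hx => by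
    have := hN x hx
    omega
  have hcle : S.card + S'.card + (S.card * S'.card + p + q) ≤ T'.card := hT'.ge
  rcases hnum with h1 | h1 | h1 | h1 | ⟨h1, h2⟩
  · -- `Cl a b q m`
    apply pl1
    obtain ⟨A, hA, hAc, hAi, hAu⟩ := hSRC W H T' (S.card + S'.card)
      (S.card * S'.card + p + q) S.card (S'.card + q - 1) hH hT' hdeg (by omega) (by omega) ha1
      (by
        have e1 : S'.card + q - 1 + 2 * S.card - 2 = q + 2 * S.card + S'.card - 3 := by omega
        rw [e1, ← Nat.add_assoc (S.card * S'.card + p + q)]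
        exact h1)
    exact ⟨A, hA, hAc, hAi, by omega⟩
  · -- `Cl b a p m`
    apply pl2
    obtain ⟨A, hA, hAc, hAi, hAu⟩ := hSRC W H T' (S.card + S'.card)
      (S.card * S'.card + p + q) S'.card (S.card + p - 1) hH hT' hdeg (by omega) (by omega) hb1
      (by
        have e1 : S.card + p - 1 + 2 * S'.card - 2 = p + 2 * S'.card + S.card - 3 := by omega
        have e2 : S.card * S'.card + p + q + (S.card + S'.card) - 2 =
            S.card * S'.card + p + q + S'.card + S.card - 2 := by omega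
        rw [e1, e2]
        exact h1)
    exact ⟨A, hA, hAc, hAi, by omega⟩
  · -- `Rn a b q n (k-1)`
    apply pl1
    obtain ⟨A, hA, hAc, hAi, hAu⟩ := hTRJ W H T'
      (S.card + S'.card + (S.card * S'.card + p + q)) (S.card + S'.card - 1) S.card
      (S'.card + q - 1) hH hcle hdeg' ha1 h1
    exact ⟨A, hA, hAc, hAi, by omega⟩
  · -- `Rn b a p n (k-1)`
    apply pl2
    obtain ⟨A, hA, hAc, hAi, hAu⟩ := hTRJ W H T'
      (S.card + S'.card + (S.card * S'.card + p + q)) (S.card + S'.card - 1) S'.card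
      (S.card + p - 1) hH hcle hdeg' hb1 h1
    exact ⟨A, hA, hAc, hAi, by omega⟩
  · -- the last case
    apply pl2
    by_cases h3 : ∃ x ∈ T', dg H T' x = S.card + S'.card - 1
    · obtain ⟨x, hx, hxd⟩ := h3
      obtain ⟨h4, c0, c1, h5, h6⟩ := h2
      obtain ⟨A, hA, hAc, hAi, hAu⟩ := hSTA W H T' x
        (S.card + S'.card + (S.card * S'.card + p + q)) (S.card + S'.card - 1) S'.card
        (S.card + p - 1) c0 c1 hH hT' hx hxd hdeg' h4 h5 h6
      exact ⟨A, hA, hAc, hAi, by omega⟩
    · have hdeg2 : ∀ x ∈ T', dg H T' x ≤ S.card + S'.card - 2 := by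
        intro x hx
        have h4 := hN x hx
        have h5 : dg H T' x ≠ S.card + S'.card - 1 := fun h6 => h3 ⟨x, hx, h6⟩
        omega
      obtain ⟨A, hA, hAc, hAi, hAu⟩ := hTRJ W H T'
        (S.card + S'.card + (S.card * S'.card + p + q)) (S.card + S'.card - 2) S'.card
        (S.card + p - 1) hH hcle hdeg2 hb1 h1
      exact ⟨A, hA, hAc, hAi, by omega⟩

end JOI

theorem t_JOI (hSRC : S_SRC) (hTRJ : S_TRJ) (hSTA : S_STA) (hPLC : S_PLC) (hNMS : S_NMS)
    (hNMM : S_NMM) (hNML : S_NML) : S_JOI := by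
  intro V W _ G H S S' hH hd hj hG hG'
  rcases le_total S.card S'.card with hle | hle
  · exact JOI.half hSRC hTRJ hSTA hPLC hNMS hNMM hNML G H S S' hH hd hj hG hG' hle
  · rw [Finset.union_comm]
    exact JOI.half hSRC hTRJ hSTA hPLC hNMS hNMM hNML G H S' S hH hd.symm
      (fun x hx y hy => (hj y hy x hx).symm) hG' hG hle

end Pool.Agent.SJN
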