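import Mathlib
import Pool.Agent.SJN.Stmts

/-!
# Project SJN, module NML: the criterion for `a + b ≥ 100`

Calculus in one variable, see `Pool/Agent/SJN/NML_proof.txt`.
-/

set_option autoImplicit false

namespace Pool.Agent.SJN

open Finset Classical Pool.Agent.Lib_helper62.CMP

namespace NML

theorem taylor (A : ℕ) (t : ℝ) (ht : 0 ≤ t) :
    (1 + t) ^ A * (1 - (A : ℝ) * t + (A : ℝ) * ((A : ℝ) + 1) / 2 * t ^ 2 -
      (A : ℝ) * ((A : ℝ) + 1) * ((A : ℝ) + 2) / 6 * t ^ 3) ≤ 1 := by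
  induction A with
  | zero => simp
  | succ A ih =>
    have h1 : (1 + t) ^ (A + 1) * (1 - ((A + 1 : ℕ) : ℝ) * t +
        ((A + 1 : ℕ) : ℝ) * (((A + 1 : ℕ) : ℝ) + 1) / 2 * t ^ 2 -
        ((A + 1 : ℕ) : ℝ) * (((A + 1 : ℕ) : ℝ) + 1) * (((A + 1 : ℕ) : ℝ) + 2) / 6 * t ^ 3) =
        (1 + t) ^ A * (1 - (A : ℝ) * t + (A : ℝ) * ((A : ℝ) + 1) / 2 * t ^ 2 -
          (A : ℝ) * ((A : ℝ) + 1) * ((A : ℝ) + 2) / 6 * t ^ 3) -
        (1 + t) ^ A * (((A : ℝ) + 1) * ((A : ℝ) + 2) * ((A : ℝ) + 3) / 6 * t ^ 4) := by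
      push_cast
      ring
    rw [h1]
    have h2 : 0 ≤ (1 + t) ^ A * (((A : ℝ) + 1) * ((A : ℝ) + 2) * ((A : ℝ) + 3) / 6 * t ^ 4) := by
      positivity
    linarith

theorem two_mul_exp (x : ℝ) (hx : 0 < x) : 2 * x * Real.exp (-x) ≤ 1 := by
  have h1 := Real.quadratic_le_exp_of_nonneg hx.le
  have h2 : 2 * x ≤ Real.exp x := by nlinarith [sq_nonneg (x - 1)]
  calc 2 * x * Real.exp (-x) ≤ Real.exp x * Real.exp (-x) :=
        mul_le_mul_of_nonneg_right h2 (Real.exp_pos _).le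
    _ = 1 := by rw [← Real.exp_add, add_neg_cancel, Real.exp_zero]

/-- the tangent at `c` -/
theorem tangent (c E x : ℝ) (hE : E ≤ Real.exp (-c)) (hx : x ≤ c + 1) :
    E * (c + 1 - x) ≤ Real.exp (-x) := by
  have h1 : -x = -c + (c - x) := by ring
  rw [h1, Real.exp_add]
  have h2 := Real.add_one_le_exp (c - x)
  have h3 : 0 ≤ c + 1 - x := by linarith
  calc E * (c + 1 - x) ≤ Real.exp (-c) * (c + 1 - x) := mul_le_mul_of_nonneg_right hE h3
    _ ≤ Real.exp (-c) * Real.exp (c - x) :=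
        mul_le_mul_of_nonneg_left (by linarith) (Real.exp_pos _).le

theorem e1 : (0.36787 : ℝ) ≤ Real.exp (-1) := by
  have := Real.exp_neg_one_gt_d9
  linarith

theorem e2a : (0.297 : ℝ) ≤ Real.exp (-1.2) := by
  have h := Real.one_sub_div_pow_le_exp_neg (n := 64) (t := 1.2) (by norm_num)
  refine le_trans ?_ h
  norm_num

theorem e2b : (0.242 : ℝ) ≤ Real.exp (-1.4) := by
  have h := Real.one_sub_div_pow_le_exp_neg (n := 64) (t := 1.4) (by norm_num)
  refine le_trans ?_ h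
  norm_num

theorem e2c : (0.187 : ℝ) ≤ Real.exp (-1.65) := by
  have h := Real.one_sub_div_pow_le_exp_neg (n := 64) (t := 1.65) (by norm_num)
  refine le_trans ?_ h
  norm_num

theorem e2d : (0.06 : ℝ) ≤ Real.exp (-2.75) := by
  have h := Real.one_sub_div_pow_le_exp_neg (n := 64) (t := 2.75) (by norm_num)
  refine le_trans ?_ h
  norm_num

/-- monotonicity in `e` -/
theorem mono (x e e₀ : ℝ) (hx : 0 < x) (he : e₀ ≤ e) :
    Real.exp (-x) * (2 + x ^ 2 * (1 - 4 * e₀)) + 2 * x * e₀ - 1 ≤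
      Real.exp (-x) * (2 + x ^ 2 * (1 - 4 * e)) + 2 * x * e - 1 := by
  have h1 := two_mul_exp x hx
  have h2 : 0 ≤ 2 * x * (e - e₀) * (1 - 2 * x * Real.exp (-x)) :=
    mul_nonneg (mul_nonneg (by linarith) (by linarith)) (by linarith)
  nlinarith [h2]

/-- a lower bound for `e` -/
theorem elow (al a₀ : ℝ) (h1 : a₀ ≤ al) (hal : al ≤ 1 / 2) : a₀ * (1 - a₀) ≤ al * (1 - al) := by
  nlinarith [mul_nonneg (sub_nonneg.2 h1) (show 0 ≤ 1 - al - a₀ by linarith)]

theorem core (x al κ : ℝ) (hx : 0 < x) (hal0 : 0 ≤ al) (hal : al ≤ 1 / 2) (hκ : κ ≤ 1 / 98)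
    (hK : 4 * x * κ ≤ 1) (h2 : x - 1 < 2 / 3 * (al + 2 * κ) * x ^ 2)
    (he : 2 * x * (al * (1 - al)) < 1)
    (hG : Real.exp (-x) * (2 + x ^ 2 * (1 - 4 * (al * (1 - al)))) + 2 * x * (al * (1 - al)) - 1 <
      4 * x * κ) : False := by
  have hE := Real.exp_pos (-x)
  have hG' : Real.exp (-x) * (2 + x ^ 2 * (1 - 4 * (al * (1 - al)))) + 2 * x * (al * (1 - al)) - 1 <
      2 * x / 49 := by nlinarith
  have key : ∀ a₀ : ℝ, a₀ ≤ al →
      Real.exp (-x) * (2 + x ^ 2 * (1 - 4 * (a₀ * (1 - a₀)))) + 2 * x * (a₀ * (1 - a₀)) - 1 <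
      2 * x / 49 := fun a₀ h =>
    lt_of_le_of_lt (mono x _ _ hx (elow al a₀ h hal)) hG'
  have hal' : ∀ a₀ : ℝ, 2 / 3 * (a₀ + 1 / 49) * x ^ 2 ≤ x - 1 → a₀ ≤ al := by
    intro a₀ h
    by_contra hc
    push Not at hc
    have h3 : 2 / 3 * (al + 2 * κ) * x ^ 2 ≤ 2 / 3 * (a₀ + 1 / 49) * x ^ 2 :=
      mul_le_mul_of_nonneg_right (by linarith) (by positivity)
    linarith
  rcases le_or_gt x 1.1 with h | h
  · have h3 := key 0 hal0
    have h4 := tangent 1 0.36787 x e1 (by linarith)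
    have h5 : 0.36787 * (1 + 1 - x) * (2 + x ^ 2) ≤ Real.exp (-x) * (2 + x ^ 2) :=
      mul_le_mul_of_nonneg_right h4 (by positivity)
    have h6 : 1 + 2 * x / 49 ≤ 0.36787 * (1 + 1 - x) * (2 + x ^ 2) := by
      nlinarith [mul_nonneg (sub_nonneg.2 h) (sq_nonneg (x - 0.5)), mul_nonneg (sub_nonneg.2 h) hx.le,
        mul_nonneg (sub_nonneg.2 h) (sq_nonneg x)]
    nlinarith
  rcases le_or_gt x 1.25 with h' | h'
  · have h3 := key 0.103 (hal' _ (by nlinarith))
    have h4 := tangent 1.2 0.297 x e2a (by linarith)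
    have h5 : 0.297 * (1.2 + 1 - x) * (2 + x ^ 2 * (1 - 4 * (0.103 * (1 - 0.103)))) ≤
        Real.exp (-x) * (2 + x ^ 2 * (1 - 4 * (0.103 * (1 - 0.103)))) :=
      mul_le_mul_of_nonneg_right h4 (by nlinarith [sq_nonneg x])
    have h6 : 1 + 2 * x / 49 ≤ 0.297 * (1.2 + 1 - x) * (2 + x ^ 2 * (1 - 4 * (0.103 * (1 - 0.103)))) +
        2 * x * (0.103 * (1 - 0.103)) := by
      nlinarith [mul_nonneg (sub_nonneg.2 h') (sub_nonneg.2 h.le),
        mul_nonneg (mul_nonneg (sub_nonneg.2 h') (sub_nonneg.2 h.le)) hx.le]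
    linarith
  rcases le_or_gt x 1.5 with h'' | h''
  · have h3 := key 0.219 (hal' _ (by nlinarith))
    have h4 := tangent 1.4 0.242 x e2b (by linarith)
    have h5 : 0.242 * (1.4 + 1 - x) * (2 + x ^ 2 * (1 - 4 * (0.219 * (1 - 0.219)))) ≤
        Real.exp (-x) * (2 + x ^ 2 * (1 - 4 * (0.219 * (1 - 0.219)))) :=
      mul_le_mul_of_nonneg_right h4 (by nlinarith [sq_nonneg x])
    have h6 : 1 + 2 * x / 49 ≤ 0.242 * (1.4 + 1 - x) * (2 + x ^ 2 * (1 - 4 * (0.219 * (1 - 0.219)))) +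
        2 * x * (0.219 * (1 - 0.219)) := by
      nlinarith [mul_nonneg (sub_nonneg.2 h'') (sub_nonneg.2 h'.le),
        mul_nonneg (mul_nonneg (sub_nonneg.2 h'') (sub_nonneg.2 h'.le)) hx.le]
    linarith
  rcases le_or_gt x 3.5 with h3' | h3'
  · have h3 := key 0.285 (hal' _ (by nlinarith))
    rcases le_or_gt x 2.3 with h4' | h4'
    · have h4 := tangent 1.65 0.187 x e2c (by linarith)
      have h5 : 0.187 * (1.65 + 1 - x) * (2 + x ^ 2 * (1 - 4 * (0.285 * (1 - 0.285)))) ≤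
          Real.exp (-x) * (2 + x ^ 2 * (1 - 4 * (0.285 * (1 - 0.285)))) :=
        mul_le_mul_of_nonneg_right h4 (by nlinarith [sq_nonneg x])
      have h6 : 1 + 2 * x / 49 ≤ 0.187 * (1.65 + 1 - x) * (2 + x ^ 2 * (1 - 4 * (0.285 * (1 - 0.285)))) +
          2 * x * (0.285 * (1 - 0.285)) := by
        nlinarith [mul_nonneg (sub_nonneg.2 h4') (sub_nonneg.2 h''.le),
          mul_nonneg (mul_nonneg (sub_nonneg.2 h4') (sub_nonneg.2 h''.le)) hx.le]
      linarith
    · rcases le_or_gt x 2.75 with h5' | h5'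
      · have h4 : (0.06 : ℝ) ≤ Real.exp (-x) := le_trans e2d (Real.exp_le_exp.2 (by linarith))
        have h5 : 0.06 * (2 + x ^ 2 * (1 - 4 * (0.285 * (1 - 0.285)))) ≤
            Real.exp (-x) * (2 + x ^ 2 * (1 - 4 * (0.285 * (1 - 0.285)))) :=
          mul_le_mul_of_nonneg_right h4 (by nlinarith [sq_nonneg x])
        nlinarith
      · have h5 : 0 ≤ Real.exp (-x) * (2 + x ^ 2 * (1 - 4 * (0.285 * (1 - 0.285)))) :=
          mul_nonneg hE.le (by nlinarith [sq_nonneg x])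
        nlinarith
  rcases le_or_gt x 5 with h4' | h4'
  · have h3 := key 0.219 (hal' _ (by nlinarith))
    have h5 : 0 ≤ Real.exp (-x) * (2 + x ^ 2 * (1 - 4 * (0.219 * (1 - 0.219)))) :=
      mul_nonneg hE.le (by nlinarith [sq_nonneg x])
    nlinarith
  · -- `x > 5`
    have h3 : 2 * κ ≤ 1 / (2 * x) := by
      rw [le_div_iff₀ (by linarith)]
      linarith
    have h4 : (2 * x - 3) / (2 * x ^ 2) ≤ al := by
      have h5 : x - 1 < 2 / 3 * (al + 1 / (2 * x)) * x ^ 2 := by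
        refine lt_of_lt_of_le h2 (mul_le_mul_of_nonneg_right (by linarith) (by positivity))
      have h6 : 2 / 3 * (al + 1 / (2 * x)) * x ^ 2 = (2 * al * x ^ 2 + x) / 3 := by
        field_simp
      rw [div_le_iff₀ (by positivity)]
      rw [h6] at h5
      linarith
    have h5 := elow al _ h4 hal
    have h6 : 2 * x * ((2 * x - 3) / (2 * x ^ 2) * (1 - (2 * x - 3) / (2 * x ^ 2))) =
        (2 * x - 3) * (2 * x ^ 2 - (2 * x - 3)) / (2 * x ^ 3) := by
      field_simp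
    have h7 : 1 ≤ (2 * x - 3) * (2 * x ^ 2 - (2 * x - 3)) / (2 * x ^ 3) := by
      rw [le_div_iff₀ (by positivity)]
      nlinarith [mul_nonneg (sq_nonneg x) (sub_nonneg.2 h4'.le)]
    have h8 : 2 * x * ((2 * x - 3) / (2 * x ^ 2) * (1 - (2 * x - 3) / (2 * x ^ 2))) ≤
        2 * x * (al * (1 - al)) := mul_le_mul_of_nonneg_left h5 (by linarith)
    linarith

theorem cl_iff (A B q M : ℕ) (hM : 0 < M) :
    Cl (A + 1) (B + 1) q M ↔
      ((q : ℝ) + 2 * A + B) * (1 + ((A : ℝ) + B) / M) ^ A < M := by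
  have hM' : (0 : ℝ) < M := by exact_mod_cast hM
  have h1 : q + 2 * (A + 1) + (B + 1) - 3 = q + 2 * A + B := by omega
  have h2 : M + (A + 1) + (B + 1) - 2 = M + (A + B) := by omega
  have h3 : A + 1 - 1 = A := by omega
  unfold Cl
  rw [h1, h2, h3]
  have h4 : (1 + ((A : ℝ) + B) / M) ^ A = ((M : ℝ) + (A + B)) ^ A / (M : ℝ) ^ A := by
    rw [← div_pow]
    congr 1
    field_simp
  rw [h4, ← mul_div_assoc, div_lt_iff₀ (by positivity), ← pow_succ']
  constructor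
  · intro h
    exact_mod_cast h
  · intro h
    exact_mod_cast h

theorem cosh_low (h : ℝ) : 2 + h ^ 2 ≤ Real.exp h + Real.exp (-h) := by
  have h1 : Real.exp h + Real.exp (-h) = (Real.exp (h / 2) - Real.exp (-(h / 2))) ^ 2 + 2 := by
    have e1 : Real.exp h = Real.exp (h / 2) * Real.exp (h / 2) := by
      rw [← Real.exp_add]; congr 1; ring
    have e2 : Real.exp (-h) = Real.exp (-(h / 2)) * Real.exp (-(h / 2)) := by
      rw [← Real.exp_add]; congr 1; ring
    have e3 : Real.exp (h / 2) * Real.exp (-(h / 2)) = 1 := by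
      rw [← Real.exp_add, add_neg_cancel, Real.exp_zero]
    rw [e1, e2]
    nlinarith [e3]
  have h2 : ∀ y : ℝ, 0 ≤ y → 2 * y ≤ Real.exp y - Real.exp (-y) := by
    intro y hy
    have := Real.self_le_sinh_iff.2 hy
    rw [Real.sinh_eq] at this
    linarith
  have h3 : h ^ 2 ≤ (Real.exp (h / 2) - Real.exp (-(h / 2))) ^ 2 := by
    rcases le_total 0 h with hh | hh
    · have := h2 (h / 2) (by linarith)
      nlinarith
    · have h4 := h2 (-(h / 2)) (by linarith)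
      rw [neg_neg] at h4
      nlinarith
  linarith

end NML

open NML in
theorem t_NML : S_NML := by
  intro a b p q ha hab hs
  obtain ⟨A, rfl⟩ : ∃ A, a = A + 1 := ⟨a - 1, by omega⟩
  obtain ⟨B, rfl⟩ : ∃ B, b = B + 1 := ⟨b - 1, by omega⟩
  set M : ℕ := (A + 1) * (B + 1) + p + q with hMdef
  have hM : 0 < M := by positivity
  rw [cl_iff A B q M hM, cl_iff B A p M hM]
  by_contra hcon
  push Not at hcon
  obtain ⟨f1, f2⟩ := hcon
  have hA : (1 : ℝ) ≤ A := by exact_mod_cast (by omega : 1 ≤ A)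
  have hAB : (A : ℝ) ≤ B := by exact_mod_cast (by omega : A ≤ B)
  have hK : (98 : ℝ) ≤ A + B := by exact_mod_cast (by omega : 98 ≤ A + B)
  have hp : (0 : ℝ) ≤ p := Nat.cast_nonneg _
  have hq : (0 : ℝ) ≤ q := Nat.cast_nonneg _
  have hMr : (M : ℝ) = ((A : ℝ) + 1) * (B + 1) + p + q := by
    rw [hMdef]; push_cast; ring
  have hM0 : (0 : ℝ) < M := by exact_mod_cast hM
  rw [add_comm (B : ℝ) (A : ℝ)] at f2
  set K : ℝ := (A : ℝ) + B with hKdef
  set m : ℝ := (M : ℝ) with hm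
  have hK0 : 0 < K := by linarith
  set t : ℝ := K / m with ht
  have ht0 : 0 < t := div_pos hK0 hM0
  set x : ℝ := K ^ 2 / (2 * m) with hx
  have hx0 : 0 < x := by positivity
  set al : ℝ := (A : ℝ) / K with hal
  have hal0 : 0 ≤ al := by positivity
  have halh : al ≤ 1 / 2 := by
    rw [hal, div_le_iff₀ hK0]
    linarith
  -- case 2
  have case2 : x - 1 < 2 / 3 * (al + 2 * (1 / K)) * x ^ 2 := by
    by_contra hc
    push Not at hc
    have h1 := taylor A t ht0.le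
    have h2 : m * (1 - (A : ℝ) * t + (A : ℝ) * ((A : ℝ) + 1) / 2 * t ^ 2 -
        (A : ℝ) * ((A : ℝ) + 1) * ((A : ℝ) + 2) / 6 * t ^ 3) =
        m - A * K + A * (A + 1) * (x - 2 / 3 * (al + 2 * (1 / K)) * x ^ 2) := by
      rw [ht, hx, hal]
      field_simp
      ring
    have h3 : (A : ℝ) * (A + 1) * 1 ≤
        A * (A + 1) * (x - 2 / 3 * (al + 2 * (1 / K)) * x ^ 2) :=
      mul_le_mul_of_nonneg_left (by linarith) (by positivity)
    have h4 : (q : ℝ) + 2 * A + B < m * (1 - (A : ℝ) * t + (A : ℝ) * ((A : ℝ) + 1) / 2 * t ^ 2 -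
        (A : ℝ) * ((A : ℝ) + 1) * ((A : ℝ) + 2) / 6 * t ^ 3) := by
      rw [h2]
      have h5 : m - A * K + A * (A + 1) * 1 = 2 * A + B + 1 + p + q := by
        rw [hMr, hKdef]; ring
      linarith
    have h5 : 0 < (1 + t) ^ A := by positivity
    have h6 : ((q : ℝ) + 2 * A + B) * (1 + t) ^ A <
        m * (1 - (A : ℝ) * t + (A : ℝ) * ((A : ℝ) + 1) / 2 * t ^ 2 -
        (A : ℝ) * ((A : ℝ) + 1) * ((A : ℝ) + 2) / 6 * t ^ 3) * (1 + t) ^ A :=
      mul_lt_mul_of_pos_right h4 h5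
    have h7 : m * (1 - (A : ℝ) * t + (A : ℝ) * ((A : ℝ) + 1) / 2 * t ^ 2 -
        (A : ℝ) * ((A : ℝ) + 1) * ((A : ℝ) + 2) / 6 * t ^ 3) * (1 + t) ^ A ≤ m * 1 := by
      rw [mul_assoc]
      refine mul_le_mul_of_nonneg_left ?_ hM0.le
      rw [mul_comm]
      exact h1
    linarith
  -- the exponential bounds
  have ex : ∀ n : ℕ, (1 + t) ^ n ≤ Real.exp (n * t) := by
    intro n
    rw [Real.exp_nat_mul]
    refine pow_le_pow_left₀ (by linarith) ?_ n
    have := Real.add_one_le_exp t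
    linarith
  have g1 : m * Real.exp (-(A * t)) ≤ q + 2 * A + B := by
    have h1 : m ≤ (q + 2 * A + B) * Real.exp (A * t) :=
      le_trans f1 (mul_le_mul_of_nonneg_left (ex A) (by positivity))
    calc m * Real.exp (-(A * t)) ≤ (q + 2 * A + B) * Real.exp (A * t) * Real.exp (-(A * t)) :=
          mul_le_mul_of_nonneg_right h1 (Real.exp_pos _).le
      _ = q + 2 * A + B := by rw [mul_assoc, ← Real.exp_add, add_neg_cancel, Real.exp_zero, mul_one]
  have g2 : m * Real.exp (-(B * t)) ≤ p + 2 * B + A := by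
    have h1 : m ≤ (p + 2 * B + A) * Real.exp (B * t) :=
      le_trans f2 (mul_le_mul_of_nonneg_left (ex B) (by positivity))
    calc m * Real.exp (-(B * t)) ≤ (p + 2 * B + A) * Real.exp (B * t) * Real.exp (-(B * t)) :=
          mul_le_mul_of_nonneg_right h1 (Real.exp_pos _).le
      _ = p + 2 * B + A := by rw [mul_assoc, ← Real.exp_add, add_neg_cancel, Real.exp_zero, mul_one]
  set h : ℝ := (B - A) * t / 2 with hh
  have g3 : Real.exp (-(A * t)) = Real.exp (-x) * Real.exp h := by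
    rw [← Real.exp_add]
    congr 1
    rw [hh, hx, ht, hKdef]
    field_simp
    ring
  have g4 : Real.exp (-(B * t)) = Real.exp (-x) * Real.exp (-h) := by
    rw [← Real.exp_add]
    congr 1
    rw [hh, hx, ht, hKdef]
    field_simp
    ring
  have g5 : h ^ 2 = x ^ 2 * (1 - 4 * (al * (1 - al))) := by
    rw [hh, hx, ht, hal]
    have : (B : ℝ) = K - A := by rw [hKdef]; ring
    rw [this]
    field_simp
    ring
  have g6 := cosh_low h
  have g7 : m * (Real.exp (-x) * (2 + x ^ 2 * (1 - 4 * (al * (1 - al))))) ≤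
      m - (A + 1) * (B + 1) + 3 * K := by
    have h1 : m * (Real.exp (-x) * (2 + h ^ 2)) ≤
        m * Real.exp (-(A * t)) + m * Real.exp (-(B * t)) := by
      rw [g3, g4, ← mul_add, ← mul_add]
      exact mul_le_mul_of_nonneg_left (mul_le_mul_of_nonneg_left g6 (Real.exp_pos _).le) hM0.le
    rw [g5] at h1
    have h2 : (q : ℝ) + 2 * A + B + (p + 2 * B + A) = m - (A + 1) * (B + 1) + 3 * K := by
      rw [hMr, hKdef]; ring
    linarith
  have hab : (A : ℝ) * B = 2 * x * (al * (1 - al)) * m := by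
    rw [hx, hal]
    have : (B : ℝ) = K - A := by rw [hKdef]; ring
    rw [this]
    field_simp
  have hKm : K = 2 * x * (1 / K) * m := by
    rw [hx]
    field_simp
  refine core x al (1 / K) hx0 hal0 halh ?_ ?_ case2 ?_ ?_
  · exact one_div_le_one_div_of_le (by norm_num) hK
  · -- `4 x / K ≤ 1`
    have h1 : 2 * K ≤ m := by
      rw [hMr, hKdef]
      nlinarith [mul_nonneg (sub_nonneg.2 hA) (sub_nonneg.2 (le_trans hA hAB))]
    have h2 : 4 * x * (1 / K) * m ≤ 1 * m := by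
      linarith
    exact le_of_mul_le_mul_right h2 hM0
  · have h1 : 2 * x * (al * (1 - al)) * m < 1 * m := by
      rw [← hab, hMr]
      nlinarith
    exact lt_of_mul_lt_mul_right h1 hM0.le
  · have h1 : (Real.exp (-x) * (2 + x ^ 2 * (1 - 4 * (al * (1 - al)))) +
        2 * x * (al * (1 - al)) - 1) * m < 4 * x * (1 / K) * m := by
      have h2 : (Real.exp (-x) * (2 + x ^ 2 * (1 - 4 * (al * (1 - al)))) +
        2 * x * (al * (1 - al)) - 1) * m =
        m * (Real.exp (-x) * (2 + x ^ 2 * (1 - 4 * (al * (1 - al))))) + A * B - m := by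
        rw [hab]; ring
      rw [h2]
      have h3 : ((A : ℝ) + 1) * (B + 1) = A * B + K + 1 := by rw [hKdef]; ring
      rw [h3] at g7
      linarith
    exact lt_of_mul_lt_mul_right h1 hM0.le

end Pool.Agent.SJN
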