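import Pool.Agent.SJN.Stmts

/-!
# Project SJN (MP_c6effb_co), module NMM: the closed form criterion for `30 ≤ a + b ≤ 99`
-/

set_option autoImplicit false

namespace Pool.Agent.SJN

namespace NMM

/-- descending loop: all `m` with `a * b ≤ m ≤ M` are covered -/
def lp (a b : ℕ) : ℕ → ℕ → Bool
  | 0, _ => false
  | n+1, M =>
    if M < a * b then true else
    if (M + 2 * a + b - 3 - a * b) * (M + a + b - 2) ^ (a - 1) < M ^ a then true else
    if 2 * M + 3 * (a + b) - 5 - a * b - M ^ a / (M + a + b - 2) ^ (a - 1) -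
        M ^ b / (M + a + b - 2) ^ (b - 1) ≤ M then
      lp a b n (2 * M + 3 * (a + b) - 5 - a * b - M ^ a / (M + a + b - 2) ^ (a - 1) -
        M ^ b / (M + a + b - 2) ^ (b - 1) - 1) else false

def la (k : ℕ) : ℕ → Bool
  | 0 => true
  | n+1 => lp (n + 2) (k - (n + 2)) 200 (k * (k - 1) / 2) && la k n

def lk : ℕ → Bool
  | 0 => true
  | n+1 => la (n + 30) ((n + 30) / 2 - 1) && lk n

theorem lk_true : lk 70 = true := by decide +kernel

/-- the real function of the criterion -/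
noncomputable def R (K : ℝ) (j m : ℕ) : ℝ := (m : ℝ) ^ (j + 1) / ((m : ℝ) + K) ^ j

lemma step_real (K m : ℝ) (hK : 0 ≤ K) (hm : 1 ≤ m) (j : ℕ) :
    (m + 1) ^ (j + 1) / (m + 1 + K) ^ j ≤ m ^ (j + 1) / (m + K) ^ j + 1 := by
  set v : ℝ := m + K with hv
  have hv0 : 0 < v := by linarith
  have hv1 : 0 < v + 1 := by linarith
  have e1 : m + 1 + K = v + 1 := by rw [hv]; ring
  set y : ℝ := (m + 1) / (v + 1) with hy
  set r : ℝ := K / (v + 1) with hr
  have hy0 : 0 < y := div_pos (by linarith) hv1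
  have hr0 : 0 ≤ r := div_nonneg hK hv1.le
  have hyr : y = 1 - r := by
    rw [hy, hr, eq_sub_iff_add_eq, ← add_div, div_eq_one_iff_eq hv1.ne']
    linarith
  have hyv : y * (v + 1) = m + 1 := div_mul_cancel₀ _ hv1.ne'
  have hrv : r * (v + 1) = K := div_mul_cancel₀ _ hv1.ne'
  -- the value at `m + 1`
  have h1 : (m + 1) ^ (j + 1) / (m + 1 + K) ^ j = y ^ j * (m + 1) := by
    rw [e1, hy, div_pow, pow_succ]
    ring
  -- the value at `m`
  have h2 : m ^ (j + 1) / (m + K) ^ j = v * (m / v) ^ (j + 1) := by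
    rw [div_pow, pow_succ (v : ℝ) j, ← hv]
    field_simp
  set x : ℝ := (m / v) / y with hx
  have hxy : x * y = m / v := div_mul_cancel₀ _ hy0.ne'
  have hx0 : 0 ≤ x := by positivity
  have hmv : m / v * v = m := div_mul_cancel₀ _ hv0.ne'
  have h3 : 1 + ((j + 1 : ℕ) : ℝ) * (x - 1) ≤ x ^ (j + 1) := by
    have := one_add_mul_le_pow (a := x - 1) (by linarith) (j + 1)
    rwa [add_sub_cancel] at this
  have h4 : y ^ j * (v + j * r * v - (j + 1) * K) ≤ v * (m / v) ^ (j + 1) := by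
    have h5 : v * (m / v) ^ (j + 1) = v * y ^ (j + 1) * x ^ (j + 1) := by
      rw [← hxy, mul_pow]
      ring
    rw [h5]
    have h6 : v * y ^ (j + 1) * (1 + ((j + 1 : ℕ) : ℝ) * (x - 1)) ≤
        v * y ^ (j + 1) * x ^ (j + 1) := mul_le_mul_of_nonneg_left h3 (by positivity)
    refine le_trans (le_of_eq ?_) h6
    have h7 : v * y ^ (j + 1) * (1 + ((j + 1 : ℕ) : ℝ) * (x - 1)) =
        y ^ j * (v * y + (j + 1) * v * (x * y - y)) := by
      push_cast
      ring
    rw [h7]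
    congr 1
    have h8 : (j + 1) * v * (x * y - y) = (j + 1) * (m - v * y) := by
      rw [hxy]
      linear_combination (j + 1 : ℝ) * hmv
    rw [h8, hyr]
    have h9 : m = v - K := by rw [hv]; ring
    rw [h9]
    ring
  have h10 : y ^ j * (1 + j * r) ≤ 1 := by
    have h11 : 1 + (j : ℝ) * r ≤ (1 + r) ^ j := one_add_mul_le_pow (by linarith) j
    calc y ^ j * (1 + j * r) ≤ y ^ j * (1 + r) ^ j :=
          mul_le_mul_of_nonneg_left h11 (by positivity)
      _ = ((1 - r) * (1 + r)) ^ j := by rw [hyr, mul_pow]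
      _ ≤ 1 := by
        refine pow_le_one₀ ?_ (by nlinarith)
        rw [← hyr]
        positivity
  rw [h1, h2]
  have h12 : y ^ j * (m + 1) = y ^ j * (v + j * r * v - (j + 1) * K) + y ^ j * (1 + j * r) := by
    rw [← mul_add]
    congr 1
    have h9 : m = v - K := by rw [hv]; ring
    linear_combination h9 - (j : ℝ) * hrv
  linarith

lemma R_step {K : ℝ} (hK : 0 ≤ K) (j m : ℕ) (hm : 1 ≤ m) : R K j (m + 1) ≤ R K j m + 1 := by
  have h := step_real K m hK (by exact_mod_cast hm) j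
  unfold R
  push_cast
  exact h

lemma R_mono {K : ℝ} (hK : 0 ≤ K) (j m : ℕ) (hm : 1 ≤ m) (d : ℕ) :
    R K j (m + d) ≤ R K j m + d := by
  induction d with
  | zero => simp
  | succ d ih =>
    have h := R_step hK j (m + d) (by omega)
    rw [← add_assoc]
    push_cast
    linarith

lemma R_le {K : ℝ} (hK : 0 ≤ K) (j m M : ℕ) (hm : 1 ≤ m) (hM : m ≤ M) :
    R K j M ≤ R K j m + ((M : ℝ) - m) := by
  obtain ⟨d, rfl⟩ := Nat.exists_eq_add_of_le hM
  have h := R_mono hK j m hm d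
  push_cast
  linarith

lemma lt_R {a b c m : ℕ} (ha : 1 ≤ a) (hab : 2 ≤ a + b) (hm : 1 ≤ m) :
    (c * (m + a + b - 2) ^ (a - 1) < m ^ a) ↔ (c : ℝ) < R ((a + b - 2 : ℕ) : ℝ) (a - 1) m := by
  unfold R
  have h1 : (0 : ℝ) < ((m : ℝ) + ((a + b - 2 : ℕ) : ℝ)) ^ (a - 1) := by positivity
  rw [lt_div_iff₀ h1]
  have h2 : m + a + b - 2 = m + (a + b - 2) := by omega
  have h3 : a - 1 + 1 = a := by omega
  rw [h2, h3]
  constructor
  · intro h
    exact_mod_cast h
  · intro h
    exact_mod_cast h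

lemma div_le_R {a b m : ℕ} (ha : 1 ≤ a) (hab : 2 ≤ a + b) :
    ((m ^ a / (m + a + b - 2) ^ (a - 1) : ℕ) : ℝ) ≤ R ((a + b - 2 : ℕ) : ℝ) (a - 1) m := by
  unfold R
  have h2 : m + a + b - 2 = m + (a + b - 2) := by omega
  have h3 : a - 1 + 1 = a := by omega
  rw [h2, h3]
  refine Nat.cast_div_le.trans (le_of_eq ?_)
  push_cast
  rfl

lemma lp_spec {a b : ℕ} (ha : 2 ≤ a) (hb : 2 ≤ b) : ∀ n M : ℕ, lp a b n M = true →
    ∀ p q : ℕ, a * b + p + q ≤ M →
      Cl a b q (a * b + p + q) ∨ Cl b a p (a * b + p + q) := by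
  intro n
  induction n with
  | zero =>
    intro M h
    simp [lp] at h
  | succ n ih =>
    intro M h p q hM
    have hab : 4 ≤ a * b := by nlinarith
    obtain ⟨m, hm⟩ : ∃ m, m = a * b + p + q := ⟨_, rfl⟩
    rw [← hm] at hM ⊢
    have hm1 : 1 ≤ m := by omega
    have hK : (0 : ℝ) ≤ ((a + b - 2 : ℕ) : ℝ) := Nat.cast_nonneg _
    have hK' : (0 : ℝ) ≤ ((b + a - 2 : ℕ) : ℝ) := Nat.cast_nonneg _
    rw [lp] at h
    by_cases h1 : M < a * b
    · omega
    rw [if_neg h1] at h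
    by_cases h2 : (M + 2 * a + b - 3 - a * b) * (M + a + b - 2) ^ (a - 1) < M ^ a
    · left
      unfold Cl
      rw [lt_R (by omega) (by omega) hm1]
      rw [lt_R (by omega) (by omega) (by omega)] at h2
      have h3 := R_le hK (a - 1) m M hm1 hM
      have h4 : ((q + 2 * a + b - 3 : ℕ) : ℝ) + ((M : ℝ) - m) ≤
          ((M + 2 * a + b - 3 - a * b : ℕ) : ℝ) := by
        have h5 : q + 2 * a + b - 3 + M ≤ M + 2 * a + b - 3 - a * b + m := by omega
        have h6 : ((q + 2 * a + b - 3 : ℕ) : ℝ) + M ≤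
            ((M + 2 * a + b - 3 - a * b : ℕ) : ℝ) + m := by exact_mod_cast h5
        linarith
      linarith
    rw [if_neg h2] at h
    obtain ⟨A, hA⟩ : ∃ A, A = M ^ a / (M + a + b - 2) ^ (a - 1) := ⟨_, rfl⟩
    obtain ⟨B, hB⟩ : ∃ B, B = M ^ b / (M + a + b - 2) ^ (b - 1) := ⟨_, rfl⟩
    rw [← hA, ← hB] at h
    by_cases h3 : 2 * M + 3 * (a + b) - 5 - a * b - A - B ≤ M
    · rw [if_pos h3] at h
      by_cases h4 : m ≤ 2 * M + 3 * (a + b) - 5 - a * b - A - B - 1
      · rw [hm] at h4 ⊢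
        exact ih _ h p q h4
      · by_contra hc
        push Not at hc
        obtain ⟨hc1, hc2⟩ := hc
        unfold Cl at hc1 hc2
        rw [lt_R (by omega) (by omega) hm1, not_lt] at hc1 hc2
        have h5 := R_le hK (a - 1) m M hm1 hM
        have h6 := R_le hK' (b - 1) m M hm1 hM
        have h7 : (A : ℝ) ≤ R ((a + b - 2 : ℕ) : ℝ) (a - 1) M := by
          rw [hA]
          exact div_le_R (by omega) (by omega)
        have h8 : (B : ℝ) ≤ R ((b + a - 2 : ℕ) : ℝ) (b - 1) M := by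
          have e : M + a + b - 2 = M + b + a - 2 := by omega
          rw [hB, e]
          exact div_le_R (by omega) (by omega)
        have h9 : (A : ℝ) + B + 2 * m ≤ ((q + 2 * a + b - 3 : ℕ) : ℝ) +
            ((p + 2 * b + a - 3 : ℕ) : ℝ) + 2 * M := by linarith
        have h10 : A + B + 2 * m ≤ q + 2 * a + b - 3 + (p + 2 * b + a - 3) + 2 * M := by
          exact_mod_cast h9
        omega
    · rw [if_neg h3] at h
      exact absurd h (by simp)

lemma la_spec {k : ℕ} : ∀ n : ℕ, la k n = true → ∀ i < n,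
    lp (i + 2) (k - (i + 2)) 200 (k * (k - 1) / 2) = true := by
  intro n
  induction n with
  | zero =>
    intro _ i hi
    omega
  | succ n ih =>
    intro h i hi
    rw [la, Bool.and_eq_true] at h
    rcases Nat.lt_succ_iff_lt_or_eq.1 hi with h1 | h1
    · exact ih h.2 i h1
    · rw [h1]
      exact h.1

lemma lk_spec : ∀ n : ℕ, lk n = true → ∀ i < n, la (i + 30) ((i + 30) / 2 - 1) = true := by
  intro n
  induction n with
  | zero =>
    intro _ i hi
    omega
  | succ n ih =>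
    intro h i hi
    rw [lk, Bool.and_eq_true] at h
    rcases Nat.lt_succ_iff_lt_or_eq.1 hi with h1 | h1
    · exact ih h.2 i h1
    · rw [h1]
      exact h.1

end NMM

theorem t_NMM : S_NMM := by
  intro a b p q ha hab h30 h99 hp hq
  have h1 := NMM.lk_spec 70 NMM.lk_true (a + b - 30) (by omega)
  have e1 : a + b - 30 + 30 = a + b := by omega
  rw [e1] at h1
  have h2 := NMM.la_spec _ h1 (a - 2) (by omega)
  have e2 : a - 2 + 2 = a := by omega
  have e3 : a + b - a = b := by omega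
  rw [e2, e3] at h2
  refine NMM.lp_spec ha (by omega) _ _ h2 p q ?_
  rw [Nat.le_div_iff_mul_le (by norm_num)]
  obtain ⟨a', rfl⟩ : ∃ a', a = a' + 1 := ⟨a - 1, by omega⟩
  obtain ⟨b', rfl⟩ : ∃ b', b = b' + 1 := ⟨b - 1, by omega⟩
  have e4 : a' + 1 + (b' + 1) - 1 = a' + b' + 1 := by omega
  rw [e4]
  simp only [Nat.add_sub_cancel] at hp hq
  nlinarith

end Pool.Agent.SJN
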