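import Mathlib
import Pool.Agent.SJN.Stmts

/-!
# `SJN_NMS`: the numerical criteria for `a + b ≤ 29`, by the kernel
-/

set_option autoImplicit false

namespace Pool.Agent.SJN

open Finset Classical Pool.Agent.Lib_helper62.CMP

namespace NMS

/-- the sixteen exceptions -/
def exc : List (ℕ × ℕ × ℕ × ℕ) :=
  [(2, 2, 0, 0), (3, 3, 0, 0), (3, 3, 1, 1), (3, 4, 0, 2), (3, 5, 0, 5), (4, 4, 0, 0),
   (4, 4, 1, 1), (4, 4, 2, 2), (4, 5, 0, 2), (4, 5, 0, 3), (4, 6, 0, 5), (5, 5, 0, 0),
   (5, 5, 1, 1), (5, 5, 2, 2), (5, 6, 0, 3), (6, 6, 0, 0)]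

/-- membership in the list of the exceptions -/
def inexc (a b p q : ℕ) : Bool :=
  exc.any fun t => t.1 == a && (t.2.1 == b && (t.2.2.1 == p && t.2.2.2 == q))

/-- the test for `q = s - p` -/
def tst (a b s f1 f2 p : ℕ) : Bool :=
  if 256 * (b + (s - p) - 1) < f1 then true else
  if 256 * (a + p - 1) < f2 then true else
  if b * (b-1) / 2 < s - p then true else
  inexc a b p (s - p)

/-- loop over `p` -/
def lpp (a b s f1 f2 : ℕ) : ℕ → Bool
  | 0 => tst a b s f1 f2 0
  | p+1 => if tst a b s f1 f2 (p+1) then lpp a b s f1 f2 p else false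

/-- the check for `s = p + q` -/
def ck (a b s : ℕ) : Bool :=
  if (s + 2*a + b - 3) * (a*b + s + a + b - 2) ^ (a-1) < (a*b + s)^a then true else
  if s + 3*(a+b) - 6 < (a*b+s)^a / (a*b + s + a + b - 2)^(a-1) +
    (a*b+s)^b / (a*b + s + a + b - 2)^(b-1) then true else
  let u := 256 * (a + b + a * b + s)
  let D := 256 * (a + b - 1)
  let f1 := run a u D
  if 256 * (b + s - 1) < f1 then true else
  let f2 := run b u D
  if 256 * (a + b + s - 2) < f1 + f2 then true else
  lpp a b s f1 f2 (min s (a * (a-1) / 2))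

/-- loop over `s` -/
def ls (a b : ℕ) : ℕ → Bool
  | 0 => ck a b 0
  | s+1 => if ck a b (s+1) then ls a b s else false

/-- loop over `a` -/
def la (k : ℕ) : ℕ → Bool
  | 0 => true
  | n+1 => if ls (n+2) (k-(n+2)) (k*(k-1)/2 - (n+2)*(k-(n+2))) then la k n else false

/-- loop over `k` -/
def lk : ℕ → Bool
  | 0 => true
  | n+1 => if la (n+4) ((n+4)/2-1) then lk n else false

theorem lk_true : lk 26 = true := by decide +kernel

theorem lk_spec : ∀ N : ℕ, lk N = true → ∀ k, 4 ≤ k → k < N + 4 → la k (k/2-1) = true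
  | 0, _, k, h1, h2 => absurd h2 (by omega)
  | n+1, h, k, h1, h2 => by
    unfold lk at h
    split_ifs at h with h3
    rcases Nat.lt_or_ge k (n + 4) with h4 | h4
    · exact lk_spec n h k h1 h4
    · have : k = n + 4 := by omega
      subst this
      exact h3

theorem la_spec (k : ℕ) : ∀ N : ℕ, la k N = true → ∀ a, 2 ≤ a → a < N + 2 →
    ls a (k - a) (k*(k-1)/2 - a*(k-a)) = true
  | 0, _, a, h1, h2 => absurd h2 (by omega)
  | n+1, h, a, h1, h2 => by
    unfold la at h
    split_ifs at h with h3
    rcases Nat.lt_or_ge a (n + 2) with h4 | h4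
    · exact la_spec k n h a h1 h4
    · have : a = n + 2 := by omega
      subst this
      exact h3

theorem ls_spec (a b : ℕ) : ∀ N : ℕ, ls a b N = true → ∀ s, s ≤ N → ck a b s = true
  | 0, h, s, h1 => by
    have : s = 0 := by omega
    subst this
    exact h
  | n+1, h, s, h1 => by
    unfold ls at h
    split_ifs at h with h3
    rcases Nat.lt_or_ge n s with h4 | h4
    · have : s = n + 1 := by omega
      subst this
      exact h3
    · exact ls_spec a b n h s h4

theorem lpp_spec (a b s f1 f2 : ℕ) : ∀ N : ℕ, lpp a b s f1 f2 N = true → ∀ p, p ≤ N →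
    tst a b s f1 f2 p = true
  | 0, h, p, h1 => by
    have : p = 0 := by omega
    subst this
    exact h
  | n+1, h, p, h1 => by
    unfold lpp at h
    split_ifs at h with h3
    rcases Nat.lt_or_ge n p with h4 | h4
    · have : p = n + 1 := by omega
      subst this
      exact h3
    · exact lpp_spec a b s f1 f2 n h p h4

theorem exc_spec (a b p q : ℕ) (h : inexc a b p q = true) : Num a b p q := by
  have key : ∀ t ∈ exc, Num t.1 t.2.1 t.2.2.1 t.2.2.2 := by
    have main : ∀ (a b p q c0 c1 : ℕ), Rn b a p (a + b + (a * b + p + q)) (a + b - 2) →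
        b ≤ a + b - 1 →
        (∀ d ∈ Finset.range (a + b - 1 + 1), c0 ≤ (a + b - 1 - d).choose b + c1 * d) →
        (a + p - 1) * (a + b - 1).choose b + c1 * (a + b - 1) ^ 2 <
          (a + b - 1 - b) * (a + b - 1).choose b + c0 * (a + b + (a * b + p + q) - (a + b - 1)) →
        Num a b p q := by
      intro a b p q c0 c1 h1 h2 h3 h4
      refine Or.inr (Or.inr (Or.inr (Or.inr ⟨h1, h2, c0, c1, ?_, h4⟩)))
      intro d hd
      exact h3 d (Finset.mem_range.2 (by omega))
    intro t ht
    simp only [exc, List.mem_cons, List.not_mem_nil, or_false] at ht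
    rcases ht with rfl | rfl | rfl | rfl | rfl | rfl | rfl | rfl | rfl | rfl | rfl | rfl | rfl |
      rfl | rfl | rfl
    · exact main 2 2 0 0 2 1 (by unfold Rn; decide +kernel) (by decide) (by decide +kernel) (by decide +kernel)
    · exact main 3 3 0 0 3 1 (by unfold Rn; decide +kernel) (by decide) (by decide +kernel) (by decide +kernel)
    · exact main 3 3 1 1 3 1 (by unfold Rn; decide +kernel) (by decide) (by decide +kernel) (by decide +kernel)
    · exact main 3 4 0 2 3 1 (by unfold Rn; decide +kernel) (by decide) (by decide +kernel) (by decide +kernel)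
    · exact main 3 5 0 5 3 1 (by unfold Rn; decide +kernel) (by decide) (by decide +kernel) (by decide +kernel)
    · exact main 4 4 0 0 13 4 (by unfold Rn; decide +kernel) (by decide) (by decide +kernel) (by decide +kernel)
    · exact main 4 4 1 1 13 4 (by unfold Rn; decide +kernel) (by decide) (by decide +kernel) (by decide +kernel)
    · exact main 4 4 2 2 13 4 (by unfold Rn; decide +kernel) (by decide) (by decide +kernel) (by decide +kernel)
    · exact main 4 5 0 2 16 5 (by unfold Rn; decide +kernel) (by decide) (by decide +kernel) (by decide +kernel)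
    · exact main 4 5 0 3 16 5 (by unfold Rn; decide +kernel) (by decide) (by decide +kernel) (by decide +kernel)
    · exact main 4 6 0 5 19 6 (by unfold Rn; decide +kernel) (by decide) (by decide +kernel) (by decide +kernel)
    · exact main 5 5 0 0 21 5 (by unfold Rn; decide +kernel) (by decide) (by decide +kernel) (by decide +kernel)
    · exact main 5 5 1 1 51 15 (by unfold Rn; decide +kernel) (by decide) (by decide +kernel) (by decide +kernel)
    · exact main 5 5 2 2 51 15 (by unfold Rn; decide +kernel) (by decide) (by decide +kernel) (by decide +kernel)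
    · exact main 5 6 0 3 70 21 (by unfold Rn; decide +kernel) (by decide) (by decide +kernel) (by decide +kernel)
    · exact main 6 6 0 0 91 21 (by unfold Rn; decide +kernel) (by decide) (by decide +kernel) (by decide +kernel)
  unfold inexc at h
  rw [List.any_eq_true] at h
  obtain ⟨t, ht, h1⟩ := h
  simp only [Bool.and_eq_true, beq_iff_eq] at h1
  obtain ⟨h2, h3, h4, h5⟩ := h1
  have := key t ht
  rw [h2, h3, h4, h5] at this
  exact this

theorem div_le (x y z : ℕ) (h : x ≤ z * y) : x / y ≤ z :=
  Nat.div_le_of_le_mul (by rw [mul_comm]; exact h)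

theorem ck_spec (a b p q : ℕ) (ha : 2 ≤ a) (hb : 2 ≤ b) (hp : 2 * p ≤ a * (a - 1))
    (hq : 2 * q ≤ b * (b - 1)) (h : ck a b (p + q) = true) : Num a b p q := by
  unfold ck at h
  by_contra hcon
  unfold Num at hcon
  push Not at hcon
  obtain ⟨c1, c2, c3, c4, c5⟩ := hcon
  unfold Cl at c1 c2
  unfold Rn at c3 c4
  rw [not_lt] at c1 c2 c3 c4
  have e1 : a * b + (p + q) = a * b + p + q := by ring
  have e2 : a + b + a * b + (p + q) = a + b + (a * b + p + q) := by ring
  have e3 : a * b + p + q + b + a - 2 = a * b + p + q + a + b - 2 := by omega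
  rw [e3] at c2
  simp only [e1, e2] at h
  split_ifs at h with h1 h2 h3 h4
  · refine absurd h1 (not_lt.2 (c1.trans ?_))
    exact Nat.mul_le_mul_right _ (by omega)
  · have i1 := div_le _ _ _ c1
    have i2 := div_le _ _ _ c2
    omega
  · omega
  · omega
  · have h5 := lpp_spec _ _ _ _ _ _ h p (by
      refine le_min (by omega) ?_
      rw [Nat.le_div_iff_mul_le (by norm_num)]
      omega)
    unfold tst at h5
    have e4 : p + q - p = q := by omega
    rw [e4] at h5
    split_ifs at h5 with h6 h7 h8
    · omega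
    · omega
    · have : q ≤ b * (b - 1) / 2 := by
        rw [Nat.le_div_iff_mul_le (by norm_num)]
        omega
      omega
    · have h9 := exc_spec a b p q h5
      unfold Num Cl Rn at h9
      rw [e3] at h9
      rcases h9 with h9 | h9 | h9 | h9 | h9
      · omega
      · omega
      · omega
      · omega
      · exact c5 h9.1 h9.2

end NMS

theorem t_NMS : S_NMS := by
  intro a b p q ha hab hk hp hq
  have h1 := NMS.lk_spec 26 NMS.lk_true (a + b) (by omega) (by omega)
  have h2 := NMS.la_spec (a + b) _ h1 a ha (by omega)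
  have e1 : a + b - a = b := by omega
  rw [e1] at h2
  refine NMS.ck_spec a b p q ha (ha.trans hab) hp hq (NMS.ls_spec a b _ h2 (p + q) ?_)
  have h3 : (a + b) * (a + b - 1) = a * (a - 1) + b * (b - 1) + 2 * (a * b) := by
    obtain ⟨x, rfl⟩ := Nat.exists_eq_add_of_le' (show 1 ≤ a by omega)
    obtain ⟨y, rfl⟩ := Nat.exists_eq_add_of_le' (show 1 ≤ b by omega)
    simp only [Nat.add_sub_cancel]
    have : x + 1 + (y + 1) - 1 = x + y + 1 := by omega
    rw [this]
    ring
  have h4 : a * b + (p + q) ≤ (a + b) * (a + b - 1) / 2 := by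
    rw [Nat.le_div_iff_mul_le (by norm_num), h3]
    omega
  omega

end Pool.Agent.SJN
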