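import Mathlib
import Pool.Agent.SJN.Stmts

/-!
# P4F: a set of at least two vertices of a graph without induced path on four vertices
-/

set_option autoImplicit false

namespace Pool.Agent.SJN

open Finset Classical Pool.Agent.Lib_helper62.CMP

namespace P4F

theorem core {V : Type} (G : SimpleGraph V) (S P Q : Finset V) (v w : V) (hG : P4f G)
    (hCon : Con G S) (hv : v ∈ S) (hP : P ⊆ S) (hQ : Q ⊆ S) (hvP : v ∉ P) (hvQ : v ∉ Q)
    (hcov : ∀ z ∈ S, z = v ∨ z ∈ P ∨ z ∈ Q) (hPQ : ∀ x ∈ P, ∀ y ∈ Q, ¬ G.Adj x y)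
    (hQne : Q.Nonempty) (hw : w ∈ P) (hvw : ¬ G.Adj v w) : False := by
  -- the non-neighbours of v in P
  obtain ⟨y, hy, z, hz, hyz⟩ := hCon (P.filter fun x => ¬ G.Adj v x)
    (fun x hx => hP (mem_filter.1 hx).1) ⟨w, mem_filter.2 ⟨hw, hvw⟩⟩
    (fun h => hvP (mem_filter.1 (h ▸ hv)).1)
  obtain ⟨hyP, hvy⟩ := mem_filter.1 hy
  obtain ⟨hzS, hzN⟩ := mem_sdiff.1 hz
  have hzv : z ≠ v := by
    rintro rfl
    exact hvy hyz.symm
  have hzQ : z ∉ Q := fun h => hPQ y hyP z h hyz
  have hzP : z ∈ P := by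
    rcases hcov z hzS with h | h | h
    · exact absurd h hzv
    · exact h
    · exact absurd h hzQ
  have hvz : G.Adj v z := by
    by_contra h
    exact hzN (mem_filter.2 ⟨hzP, h⟩)
  obtain ⟨u, hu, t, ht, hut⟩ := hCon Q hQ hQne (fun h => hvQ (h ▸ hv))
  obtain ⟨htS, htQ⟩ := mem_sdiff.1 ht
  have htv : t = v := by
    rcases hcov t htS with h | h | h
    · exact h
    · exact absurd hut.symm (hPQ t h u hu)
    · exact absurd h htQ
  subst htv
  exact hPQ y hyP u hu (hG y z t u hyz hvz.symm hut.symm (fun h => hvy h.symm) (hPQ z hzP u hu))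

theorem case1 {V : Type} (G : SimpleGraph V) (S P : Finset V) (v : V) (hG : P4f G)
    (hCon : Con G S) (hCoc : Coc G S) (hv : v ∈ S) (hP : P ⊆ S.erase v) (hPne : P.Nonempty)
    (hPS : P ≠ S.erase v) (hPQ : ∀ x ∈ P, ∀ y ∈ S.erase v \ P, ¬ G.Adj x y) : False := by
  have hQne : (S.erase v \ P).Nonempty := by
    rw [sdiff_nonempty]
    exact fun h => hPS (Subset.antisymm hP h)
  have hPS' : P ⊆ S := hP.trans (erase_subset _ _)
  have hQS : S.erase v \ P ⊆ S := sdiff_subset.trans (erase_subset _ _)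
  have hvP : v ∉ P := fun h => (mem_erase.1 (hP h)).1 rfl
  have hvQ : v ∉ S.erase v \ P := fun h => (mem_erase.1 (mem_sdiff.1 h).1).1 rfl
  have hcov : ∀ z ∈ S, z = v ∨ z ∈ P ∨ z ∈ S.erase v \ P := by
    intro z hz
    by_cases h1 : z = v
    · exact Or.inl h1
    · by_cases h2 : z ∈ P
      · exact Or.inr (Or.inl h2)
      · exact Or.inr (Or.inr (mem_sdiff.2 ⟨mem_erase.2 ⟨h1, hz⟩, h2⟩))
  obtain ⟨x, hx, w, hw, hxw⟩ := hCoc {v} (singleton_subset_iff.2 hv) (singleton_nonempty v)
    (fun h => by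
      obtain ⟨z, hz⟩ := hPne
      have h1 : z ∈ ({v} : Finset V) := h ▸ hPS' hz
      exact hvP (mem_singleton.1 h1 ▸ hz))
  rw [mem_singleton] at hx
  subst hx
  obtain ⟨hwS, hwv⟩ := mem_sdiff.1 hw
  rcases hcov w hwS with h | h | h
  · exact hwv (mem_singleton.2 h)
  · exact core G S P _ x w hG hCon hv hPS' hQS hvP hvQ hcov hPQ hQne h hxw
  · exact core G S _ P x w hG hCon hv hQS hPS' hvQ hvP
      (fun z hz => by
        rcases hcov z hz with h | h | h
        · exact Or.inl h
        · exact Or.inr (Or.inr h)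
        · exact Or.inr (Or.inl h))
      (fun a ha b hb hab => hPQ b hb a ha hab.symm) hPne h hxw

theorem compl_P4f {V : Type} (G : SimpleGraph V) (hG : P4f G) : P4f Gᶜ := by
  intro a b c d hab hbc hcd hac hbd
  rw [SimpleGraph.compl_adj] at hab hbc hcd hac hbd ⊢
  by_cases h1 : a = c
  · subst h1
    exact hcd
  by_cases h2 : b = d
  · subst h2
    exact hab
  have h3 : G.Adj a c := by
    by_contra h
    exact hac ⟨h1, h⟩
  have h4 : G.Adj b d := by
    by_contra h
    exact hbd ⟨h2, h⟩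
  by_cases h5 : a = d
  · subst h5
    exact absurd h3.symm hcd.2
  refine ⟨h5, fun h6 => ?_⟩
  exact hbc.2 (hG b d a c h4 h6.symm h3 (fun h => hab.2 h.symm) (fun h => hcd.2 h.symm))

theorem compl_Con {V : Type} (G : SimpleGraph V) (S : Finset V) (h : Coc G S) : Con Gᶜ S := by
  intro P hP hne hPS
  obtain ⟨x, hx, y, hy, hxy⟩ := h P hP hne hPS
  refine ⟨x, hx, y, hy, ?_⟩
  rw [SimpleGraph.compl_adj]
  exact ⟨fun h => (mem_sdiff.1 hy).2 (h ▸ hx), hxy⟩

theorem compl_Coc {V : Type} (G : SimpleGraph V) (S : Finset V) (h : Con G S) : Coc Gᶜ S := by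
  intro P hP hne hPS
  obtain ⟨x, hx, y, hy, hxy⟩ := h P hP hne hPS
  refine ⟨x, hx, y, hy, ?_⟩
  rw [SimpleGraph.compl_adj]
  exact fun h => h.2 hxy

theorem main {V : Type} (G : SimpleGraph V) (hG : P4f G) :
    ∀ (n : ℕ) (S : Finset V), S.card = n → 2 ≤ n → ¬ (Con G S ∧ Coc G S) := by
  intro n
  induction n with
  | zero => intro S _ h; omega
  | succ n ih =>
    intro S hS hn hCC
    obtain ⟨hCon, hCoc⟩ := hCC
    rcases Nat.lt_or_ge n 2 with h2 | h2
    · have h3 : S.card = 2 := by omega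
      obtain ⟨x, y, hxy, hSxy⟩ := card_eq_two.1 h3
      have h4 : ({x} : Finset V) ⊆ S := by rw [hSxy]; simp
      have h5 : ({x} : Finset V) ≠ S := by
        intro h
        rw [← h, card_singleton] at h3
        omega
      obtain ⟨a, ha, b, hb, hab⟩ := hCon {x} h4 (singleton_nonempty x) h5
      obtain ⟨a', ha', b', hb', hab'⟩ := hCoc {x} h4 (singleton_nonempty x) h5
      rw [mem_singleton] at ha ha'
      have key : ∀ z, z ∈ S \ ({x} : Finset V) → z = y := by
        intro z hz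
        rw [hSxy, mem_sdiff, mem_insert, mem_singleton, mem_singleton] at hz
        rcases hz.1 with h | h
        · exact absurd h hz.2
        · exact h
      rw [ha, key b hb] at hab
      rw [ha', key b' hb'] at hab'
      exact hab' hab
    · obtain ⟨v, hv⟩ : S.Nonempty := card_pos.1 (by omega)
      have h6 : (S.erase v).card = n := by rw [card_erase_of_mem hv, hS]; rfl
      have h7 := ih (S.erase v) h6 h2
      rw [not_and_or] at h7
      rcases h7 with h7 | h7
      · unfold Con at h7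
        push Not at h7
        obtain ⟨P, hP, hPne, hPS, hPQ⟩ := h7
        exact case1 G S P v hG hCon hCoc hv hP hPne hPS hPQ
      · unfold Coc at h7
        push Not at h7
        obtain ⟨P, hP, hPne, hPS, hPQ⟩ := h7
        refine case1 Gᶜ S P v (compl_P4f G hG) (compl_Con G S hCoc) (compl_Coc G S hCon) hv hP hPne
          hPS ?_
        intro x hx y hy h
        rw [SimpleGraph.compl_adj] at h
        exact h.2 (hPQ x hx y hy)

end P4F

theorem t_P4F : S_P4F := fun _ G S hG hS h => P4F.main G hG S.card S rfl hS h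

end Pool.Agent.SJN
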