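import Pool.Agent.SJN.Stmts

/-!
# SJN, module PLC

Placing a set on an independent set and the rest on the survivors; the numbers of edges of a join.
-/

set_option autoImplicit false

namespace Pool.Agent.SJN

open Finset Classical Pool.Agent.Lib_helper62.CMP

namespace PLC

theorem place {V W : Type} [Nonempty W] (G : SimpleGraph V) (H : SimpleGraph W)
    (S S' : Finset V) (T A : Finset W) (m' : ℕ) (hAT : A ⊆ T)
    (hAS : A.card = S.card) (hI : Ind H A) (hu : S'.card + m' ≤ (unc H T A).card)
    (hE : ∀ T' : Finset W, S'.card + m' ≤ T'.card → Emb G H S' T') : Emb G H (S ∪ S') T := by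
  obtain ⟨g, hg1, hg2, hg3⟩ := hE (unc H T A) hu
  obtain ⟨f, hf1, hf2⟩ := exists_inj (S := S) (I := A) (by rw [hAS])
  have hunc : ∀ v ∈ unc H T A, v ∈ T ∧ ∀ p ∈ A, v ≠ p ∧ ¬ H.Adj v p := by
    intro v hv
    rw [unc, Finset.mem_filter] at hv
    exact hv
  have hmem : ∀ x ∈ S ∪ S', x ∉ S → x ∈ S' := by
    intro x hx h
    rcases Finset.mem_union.1 hx with h1 | h1
    · exact absurd h1 h
    · exact h1
  refine ⟨fun x => if x ∈ S then f x else g x, ?_, ?_, ?_⟩
  · intro x hx y hy hxy
    have hx' : x ∈ S ∪ S' := hx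
    have hy' : y ∈ S ∪ S' := hy
    by_cases h1 : x ∈ S
    · by_cases h2 : y ∈ S
      · simp only [if_pos h1, if_pos h2] at hxy
        exact hf1 h1 h2 hxy
      · simp only [if_pos h1, if_neg h2] at hxy
        exact absurd hxy.symm ((hunc _ (hg2 y (hmem y hy' h2))).2 _ (hf2 x h1)).1
    · by_cases h2 : y ∈ S
      · simp only [if_neg h1, if_pos h2] at hxy
        exact absurd hxy ((hunc _ (hg2 x (hmem x hx' h1))).2 _ (hf2 y h2)).1
      · simp only [if_neg h1, if_neg h2] at hxy
        exact hg1 (Finset.mem_coe.2 (hmem x hx' h1)) (Finset.mem_coe.2 (hmem y hy' h2)) hxy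
  · intro x hx
    by_cases h1 : x ∈ S
    · simp only [if_pos h1]
      exact hAT (hf2 x h1)
    · simp only [if_neg h1]
      exact (hunc _ (hg2 x (hmem x hx h1))).1
  · intro x hx y hy hxy
    by_cases h1 : x ∈ S
    · by_cases h2 : y ∈ S
      · simp only [if_pos h1, if_pos h2]
        exact hI _ (hf2 x h1) _ (hf2 y h2)
      · simp only [if_pos h1, if_neg h2]
        intro h3
        exact ((hunc _ (hg2 y (hmem y hy h2))).2 _ (hf2 x h1)).2 h3.symm
    · by_cases h2 : y ∈ S
      · simp only [if_neg h1, if_pos h2]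
        exact ((hunc _ (hg2 x (hmem x hx h1))).2 _ (hf2 y h2)).2
      · simp only [if_neg h1, if_neg h2]
        exact hg3 x (hmem x hx h1) y (hmem y hy h2) hxy

theorem dg_union {V : Type} (G : SimpleGraph V) (S S' : Finset V) (hd : Disjoint S S')
    (x : V) : dg G (S ∪ S') x = dg G S x + dg G S' x := by
  unfold dg
  rw [Finset.filter_union, Finset.card_union_of_disjoint]
  exact Finset.disjoint_filter_filter hd

theorem dg_full {V : Type} (G : SimpleGraph V) (S : Finset V) (x : V)
    (h : ∀ y ∈ S, G.Adj x y) : dg G S x = S.card := by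
  unfold dg
  rw [Finset.filter_true_of_mem h]

theorem join {V : Type} (G : SimpleGraph V) (S S' : Finset V) (hd : Disjoint S S')
    (h : ∀ x ∈ S, ∀ y ∈ S', G.Adj x y) :
    e2 G (S ∪ S') = e2 G S + e2 G S' + 2 * (S.card * S'.card) := by
  have e1 : ∀ x ∈ S, dg G (S ∪ S') x = dg G S x + S'.card := by
    intro x hx
    rw [dg_union G S S' hd, dg_full G S' x (h x hx)]
  have e1' : ∀ x ∈ S', dg G (S ∪ S') x = S.card + dg G S' x := by
    intro x hx
    rw [dg_union G S S' hd, dg_full G S x (fun y hy => (h y hy x hx).symm)]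
  unfold e2
  rw [Finset.sum_union hd, Finset.sum_congr rfl e1, Finset.sum_congr rfl e1',
    Finset.sum_add_distrib, Finset.sum_add_distrib, Finset.sum_const, Finset.sum_const,
    smul_eq_mul, smul_eq_mul]
  ring

theorem bound {V : Type} (G : SimpleGraph V) (S : Finset V) :
    e2 G S ≤ S.card * (S.card - 1) := by
  unfold e2
  rw [← smul_eq_mul, ← Finset.sum_const]
  apply Finset.sum_le_sum
  intro x hx
  have h1 : S.filter (fun y => G.Adj x y) ⊆ S.erase x := by
    intro y hy
    rw [Finset.mem_filter] at hy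
    exact Finset.mem_erase.2 ⟨fun h => G.loopless.irrefl x (h ▸ hy.2), hy.1⟩
  have h2 := Finset.card_le_card h1
  rw [Finset.card_erase_of_mem hx] at h2
  exact h2

end PLC

theorem t_PLC : S_PLC := by
  refine ⟨?_, ?_, ?_⟩
  · intro V W _ G H S S' T A m' _ hAT hAS hI hu hE
    exact PLC.place G H S S' T A m' hAT hAS hI hu hE
  · intro V G S S' hd h
    exact PLC.join G S S' hd h
  · intro V G S
    exact PLC.bound G S

end Pool.Agent.SJN
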