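import Mathlib
import Pool.Agent.SJN.Stmts

/-!
# MP_c6effb_co, project SJN, module SRC: the closed form criterion
-/

set_option autoImplicit false

namespace Pool.Agent.SJN

open Finset Classical Pool.Agent.Lib_helper62.CMP

namespace SRC

/-- the average degree is at most the maximal degree -/
theorem avg_le {W : Type} (H : SimpleGraph W) (T : Finset W) (k : ℕ) (hT : 0 < T.card)
    (hd : ∀ x ∈ T, dg H T x + 1 ≤ k) : (e2 H T : ℝ) / (T.card : ℝ) ≤ (k : ℝ) - 1 := by
  have hT' : (0 : ℝ) < T.card := by exact_mod_cast hT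
  rw [div_le_iff₀ hT']
  unfold e2
  push_cast
  calc ∑ x ∈ T, (dg H T x : ℝ) ≤ ∑ x ∈ T, ((k : ℝ) - 1) := by
        apply Finset.sum_le_sum
        intro x hx
        have := hd x hx
        have h2 : ((dg H T x : ℝ)) + 1 ≤ k := by exact_mod_cast this
        linarith
    _ = ((k : ℝ) - 1) * T.card := by
        rw [Finset.sum_const, nsmul_eq_mul]
        ring

end SRC

theorem t_SRC (hCLO : S_CLO) : S_SRC := by
  intro W H T k m s N hTF hcard hdeg hk hm hs hN
  obtain ⟨j, rfl⟩ : ∃ j, s = j + 1 := ⟨s - 1, by omega⟩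
  have hN' : (N + 2 * j) * (m + k - 2) ^ j < m ^ (j + 1) := by
    have e1 : N + 2 * (j + 1) - 2 = N + 2 * j := by omega
    have e2 : j + 1 - 1 = j := by omega
    rw [e1, e2] at hN
    exact hN
  have hvn : 1 ≤ m + k - 2 := by omega
  have hvc : ((m + k - 2 : ℕ) : ℝ) = (m : ℝ) + k - 2 := by
    rw [Nat.cast_sub (by omega)]
    push_cast
    ring
  set v : ℝ := (m : ℝ) + k - 2 with hv
  have hm1 : (1 : ℝ) ≤ m := by exact_mod_cast hm
  have hk2 : (2 : ℝ) ≤ k := by exact_mod_cast hk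
  have hv0 : 0 < v := by rw [hv]; linarith
  set r : ℝ := ((k : ℝ) - 2) / v with hr
  have hr0 : 0 ≤ r := div_nonneg (by linarith) hv0.le
  have hrv : r * v = (k : ℝ) - 2 := by rw [hr]; field_simp
  have h1r : 1 - r = (m : ℝ) / v := by
    rw [eq_div_iff hv0.ne', sub_mul, hrv, hv]
    ring
  have hr1 : r < 1 := by
    have : 0 < (m : ℝ) / v := div_pos (by linarith) hv0
    linarith
  have hval := hCLO W H r j hTF hr0 hr1
  have hTpos : 0 < T.card := by omega
  have havg := SRC.avg_le H T k hTpos hdeg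
  have hreal : ((N : ℝ) + 2 * j) * v ^ j < (m : ℝ) ^ (j + 1) := by
    have h0 : (((N + 2 * j) * (m + k - 2) ^ j : ℕ) : ℝ) < ((m ^ (j + 1) : ℕ) : ℝ) := by
      exact_mod_cast hN'
    rw [Nat.cast_mul, Nat.cast_pow, Nat.cast_pow, hvc] at h0
    push_cast at h0
    exact h0
  have hX : (N : ℝ) < X ((1 - r) ^ j * (1 + j * r)) ((j + 1) * (1 - r) ^ j) (-2 * (j + 1)) H T := by
    unfold X
    have hc : ((T.card : ℝ)) - 2 = v := by
      rw [hcard, hv]
      push_cast
      ring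
    rw [hc]
    have hb : 0 ≤ ((j : ℝ) + 1) * (1 - r) ^ j := by
      have : 0 ≤ 1 - r := by linarith
      positivity
    have h1 : ((j : ℝ) + 1) * (1 - r) ^ j * ((e2 H T : ℝ) / (T.card : ℝ) - 1) ≤
        ((j : ℝ) + 1) * (1 - r) ^ j * ((k : ℝ) - 2) := by
      apply mul_le_mul_of_nonneg_left _ hb
      linarith
    have h2 : (1 - r) ^ j * (1 + j * r) * v = (1 - r) ^ j * (v + j * ((k : ℝ) - 2)) := by
      rw [← hrv]
      ring
    have h3 : (1 - r) ^ j * (v + j * ((k : ℝ) - 2)) - ((j : ℝ) + 1) * (1 - r) ^ j * ((k : ℝ) - 2) =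
        (1 - r) ^ j * m := by
      have : v - ((k : ℝ) - 2) = m := by rw [hv]; ring
      rw [← this]
      ring
    have h4 : (1 - r) ^ j * m = (m : ℝ) ^ (j + 1) / v ^ j := by
      rw [h1r, div_pow]
      ring
    have h5 : (N : ℝ) + 2 * j < (m : ℝ) ^ (j + 1) / v ^ j := by
      rw [lt_div_iff₀ (pow_pos hv0 j)]
      exact hreal
    rw [h2]
    linarith
  obtain ⟨A, hA1, hA2, hA3, hA4⟩ := hval T (Finset.card_pos.mp hTpos)
    (lt_of_le_of_lt (Nat.cast_nonneg N) hX)
  refine ⟨A, hA1, hA2, hA3, ?_⟩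
  have : (N : ℝ) < ((unc H T A).card : ℝ) := lt_of_lt_of_le hX hA4
  exact_mod_cast this

end Pool.Agent.SJN
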