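import Pool.Agent.SJN.Stmts

/-!
# MP_c6effb_co: an independent set inside a neighbourhood (STA)
-/

set_option autoImplicit false

namespace Pool.Agent.SJN

open Finset Classical Pool.Agent.Lib_helper62.CMP

namespace STA

variable {W : Type}

theorem filt (H : SimpleGraph W) (I : Finset W) (a : ℕ) (v : W) :
    ((I.powersetCard a).filter (fun P => ∀ p ∈ P, v ≠ p ∧ ¬ H.Adj v p)).card =
      (I.filter (fun p => v ≠ p ∧ ¬ H.Adj v p)).card.choose a := by
  rw [← Finset.card_powersetCard]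
  congr 1
  ext P
  simp only [Finset.mem_filter, Finset.mem_powersetCard]
  constructor
  · rintro ⟨⟨h4, h5⟩, h6⟩
    exact ⟨fun p hp => Finset.mem_filter.2 ⟨h4 hp, h6 p hp⟩, h5⟩
  · rintro ⟨h4, h5⟩
    exact ⟨⟨fun p hp => (Finset.mem_filter.1 (h4 hp)).1, h5⟩, fun p hp => (Finset.mem_filter.1 (h4 hp)).2⟩

theorem sumUnc (H : SimpleGraph W) (T I : Finset W) (a : ℕ) :
    ∑ P ∈ I.powersetCard a, (unc H T P).card =
      ∑ v ∈ T, (I.filter (fun p => v ≠ p ∧ ¬ H.Adj v p)).card.choose a := by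
  have h2 : ∑ P ∈ I.powersetCard a, (unc H T P).card =
      ∑ v ∈ T, ((I.powersetCard a).filter (fun P => ∀ p ∈ P, v ≠ p ∧ ¬ H.Adj v p)).card := by
    unfold unc
    simp only [Finset.card_filter]
    rw [Finset.sum_comm]
  rw [h2]
  exact Finset.sum_congr rfl fun v _ => filt H I a v

theorem dbl (H : SimpleGraph W) (T I : Finset W) :
    ∑ y ∈ T, dg H I y = ∑ z ∈ I, dg H T z := by
  unfold dg
  simp only [Finset.card_filter]
  rw [Finset.sum_comm]
  refine Finset.sum_congr rfl fun z _ => Finset.sum_congr rfl fun y _ => ?_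
  simp only [H.adj_comm y z]

end STA

open STA in
theorem t_STA : S_STA := by
  intro W H T x n s a N c0 c1 hTF hT hx hs hd has hc hnum
  set I : Finset W := T.filter (fun y => H.Adj x y) with hI
  have hIT : I ⊆ T := Finset.filter_subset _ _
  have hIc : I.card = s := hs
  have hind : ∀ y ∈ I, ∀ z ∈ I, ¬ H.Adj y z := by
    intro y hy z hz hyz
    have h1 := (Finset.mem_filter.1 hy).2
    have h2 := (Finset.mem_filter.1 hz).2
    exact hTF x y z h1 hyz h2
  by_contra hcon
  push Not at hcon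
  have hle : ∀ A ∈ I.powersetCard a, (unc H T A).card ≤ N := by
    intro A hA
    rw [Finset.mem_powersetCard] at hA
    have h3 := hcon A (hA.1.trans hIT) hA.2 (fun y hy z hz => hind y (hA.1 hy) z (hA.1 hz))
    omega
  have h1 : ∑ A ∈ I.powersetCard a, (unc H T A).card ≤ N * s.choose a := by
    calc ∑ A ∈ I.powersetCard a, (unc H T A).card ≤ ∑ A ∈ I.powersetCard a, N :=
          Finset.sum_le_sum hle
      _ = N * s.choose a := by
          rw [Finset.sum_const, Finset.card_powersetCard, hIc, smul_eq_mul, mul_comm]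
  rw [sumUnc] at h1
  -- split T = I ∪ (T \ I)
  rw [← Finset.sum_sdiff hIT] at h1
  have hin : ∀ v ∈ I, (I.filter (fun p => v ≠ p ∧ ¬ H.Adj v p)).card = s - 1 := by
    intro v hv
    have e1 : I.filter (fun p => v ≠ p ∧ ¬ H.Adj v p) = I.erase v := by
      ext p
      simp only [Finset.mem_filter, Finset.mem_erase]
      constructor
      · rintro ⟨h4, h5, _⟩
        exact ⟨fun h => h5 h.symm, h4⟩
      · rintro ⟨h4, h5⟩
        exact ⟨h5, fun h => h4 h.symm, hind v hv p h5⟩
    rw [e1, Finset.card_erase_of_mem hv, hIc]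
  have hS1 : ∑ v ∈ I, (I.filter (fun p => v ≠ p ∧ ¬ H.Adj v p)).card.choose a =
      (s - a) * s.choose a := by
    rw [Finset.sum_congr rfl (fun v hv => by rw [hin v hv]), Finset.sum_const, hIc, smul_eq_mul]
    rcases Nat.eq_zero_or_pos s with h0 | h0
    · subst h0
      simp
    · obtain ⟨s', rfl⟩ : ∃ s', s = s' + 1 := ⟨s - 1, by omega⟩
      have h6 := Nat.add_one_mul_choose_eq s' a
      have h7 := Nat.choose_succ_right_eq (s' + 1) a
      have h8 : s' + 1 - 1 = s' := by omega
      rw [h8, h6]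
      rw [h7, mul_comm]
  have hout : ∀ v ∈ T \ I, c0 ≤ (I.filter (fun p => v ≠ p ∧ ¬ H.Adj v p)).card.choose a +
      c1 * dg H I v := by
    intro v hv
    have hvI : v ∉ I := (Finset.mem_sdiff.1 hv).2
    have e1 : (I.filter (fun p => v ≠ p ∧ ¬ H.Adj v p)) = I.filter (fun p => ¬ H.Adj v p) := by
      refine Finset.filter_congr fun p hp => ?_
      constructor
      · exact fun h => h.2
      · exact fun h => ⟨fun h' => hvI (h' ▸ hp), h⟩
    have e2 : (I.filter (fun p => ¬ H.Adj v p)).card = s - dg H I v := by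
      have h9 := Finset.card_filter_add_card_filter_not (s := I) (fun p => H.Adj v p)
      unfold dg
      omega
    have h10 : dg H I v ≤ s := by
      rw [← hIc]
      exact Finset.card_filter_le _ _
    rw [e1, e2]
    exact hc _ h10
  have hS2 : c0 * (n - s) ≤ ∑ v ∈ T \ I, (I.filter (fun p => v ≠ p ∧ ¬ H.Adj v p)).card.choose a +
      c1 * ∑ v ∈ T \ I, dg H I v := by
    have h11 : (T \ I).card = n - s := by
      rw [Finset.card_sdiff_of_subset hIT, hT, hIc]
    calc c0 * (n - s) = ∑ v ∈ T \ I, c0 := by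
          rw [Finset.sum_const, h11, smul_eq_mul, mul_comm]
      _ ≤ ∑ v ∈ T \ I, ((I.filter (fun p => v ≠ p ∧ ¬ H.Adj v p)).card.choose a +
            c1 * dg H I v) := Finset.sum_le_sum hout
      _ = _ := by rw [Finset.sum_add_distrib, Finset.mul_sum]
  have hS3 : ∑ v ∈ T \ I, dg H I v ≤ s ^ 2 := by
    calc ∑ v ∈ T \ I, dg H I v ≤ ∑ v ∈ T, dg H I v :=
          Finset.sum_le_sum_of_subset Finset.sdiff_subset
      _ = ∑ z ∈ I, dg H T z := dbl H T I
      _ ≤ ∑ z ∈ I, s := Finset.sum_le_sum fun z hz => hd z (hIT hz)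
      _ = s ^ 2 := by rw [Finset.sum_const, hIc, smul_eq_mul, sq]
  have hS4 : c1 * ∑ v ∈ T \ I, dg H I v ≤ c1 * s ^ 2 := Nat.mul_le_mul_left _ hS3
  rw [hS1] at h1
  omega

end Pool.Agent.SJN
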