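import Pool.Agent.SJN.Stmts

/-!
# Project SJN, module STP: the main step
-/

set_option autoImplicit false

namespace Pool.Agent.SJN

open Finset Classical Pool.Agent.Lib_helper62.CMP

namespace STP

variable {W : Type}

theorem dg_lt {H : SimpleGraph W} {U : Finset W} {x : W} (hx : x ∈ U) :
    dg H U x + 1 ≤ U.card := by
  unfold dg
  have h : U.filter (fun y => H.Adj x y) ⊂ U := by
    rw [Finset.ssubset_iff_of_subset (Finset.filter_subset _ _)]
    refine ⟨x, hx, ?_⟩
    simp
  have := Finset.card_lt_card h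
  omega

theorem e2_le {H : SimpleGraph W} {U : Finset W} :
    e2 H U + U.card ≤ U.card ^ 2 := by
  unfold e2
  calc ∑ x ∈ U, dg H U x + U.card = ∑ x ∈ U, (dg H U x + 1) := by
        rw [Finset.sum_add_distrib, Finset.sum_const, smul_eq_mul, mul_one]
    _ ≤ ∑ _x ∈ U, U.card := Finset.sum_le_sum fun x hx => dg_lt hx
    _ = U.card ^ 2 := by rw [Finset.sum_const, smul_eq_mul, sq]

/-- the edge case: no vertex has a non-neighbour -/
theorem edge {H : SimpleGraph W} {U : Finset W} {α' β' γ' : ℝ} (hTF : TF H)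
    (hS : ∑ x ∈ U, (del H U x).card + U.card + e2 H U = U.card ^ 2)
    (hU : U.Nonempty) (h1 : γ' ≤ -2) (h2 : β' - α' + γ' ≤ -2)
    (ht : 0 < X α' β' γ' H U) : 2 ≤ U.card ∧ 0 < ∑ x ∈ U, (del H U x).card := by
  have hpos : 1 ≤ U.card := Finset.card_pos.2 hU
  have hne1 : U.card ≠ 1 := by
    intro hc
    have hle := e2_le (H := H) (U := U)
    have he : e2 H U = 0 := by
      rw [hc] at hle
      simpa using hle
    unfold X at ht
    rw [hc, he] at ht
    norm_num at ht
    linarith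
  refine ⟨by omega, ?_⟩
  rw [Nat.pos_iff_ne_zero]
  intro h0
  have hz : ∀ x ∈ U, (del H U x).card = 0 := by
    intro x hx
    exact Finset.sum_eq_zero_iff.1 h0 x hx
  have hadj : ∀ a ∈ U, ∀ b ∈ U, a ≠ b → H.Adj a b := by
    intro a ha b hb hab
    by_contra hcon
    have hmem : b ∈ del H U a := by
      unfold del
      rw [Finset.mem_filter]
      exact ⟨hb, hab.symm, hcon⟩
    have := hz a ha
    rw [Finset.card_eq_zero] at this
    rw [this] at hmem
    exact absurd hmem (Finset.notMem_empty b)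
  have hle2 : U.card ≤ 2 := by
    by_contra hcon
    push Not at hcon
    obtain ⟨a, ha, b, hb, c, hc, hab, hac, hbc⟩ := Finset.two_lt_card.1 hcon
    exact hTF a b c (hadj a ha b hb hab) (hadj b hb c hc hbc) (hadj a ha c hc hac)
  have hc2 : U.card = 2 := by omega
  have he : e2 H U = 2 := by
    rw [h0, hc2] at hS
    omega
  unfold X at ht
  rw [hc2, he] at ht
  norm_num at ht
  linarith

end STP

open STP in
theorem t_STP (hSUM : S_SUM) : S_STP := by
  intro W H j α β γ α' β' γ' hTF hα hβ hV hstar h1 h2 U hU ht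
  obtain ⟨hS1, hS2⟩ := hSUM W H U hTF
  obtain ⟨hcard, hpos⟩ := edge hTF hS1 hU h1 h2 ht
  set u : ℝ := (U.card : ℝ) with hu
  have hu2 : (2 : ℝ) ≤ u := by rw [hu]; exact_mod_cast hcard
  have hu0 : 0 < u := by linarith
  set E : ℝ := (e2 H U : ℝ) with hE
  set D : ℝ := E / u with hD
  have hDE : E = u * D := by rw [hD]; field_simp
  set f : W → ℝ := fun x => ((del H U x).card : ℝ) with hf
  set g : W → ℝ := fun x => (e2 H (del H U x) : ℝ) with hg
  set d : W → ℝ := fun x => (dg H U x : ℝ) with hd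
  set w : ℝ := u - 1 - D with hw
  have s1 : ∑ x ∈ U, f x = u * w := by
    have h3 : ((∑ x ∈ U, (del H U x).card + U.card + e2 H U : ℕ) : ℝ) = ((U.card ^ 2 : ℕ) : ℝ) := by
      rw [hS1]
    push_cast at h3
    have h4 : ∑ x ∈ U, f x + u + E = u ^ 2 := h3
    rw [hDE] at h4
    rw [hw]
    linarith [h4]
  have hsum0 : 0 < ∑ x ∈ U, f x := by
    have h3 : (0 : ℝ) < ((∑ x ∈ U, (del H U x).card : ℕ) : ℝ) := by exact_mod_cast hpos
    rw [Nat.cast_sum] at h3
    exact h3
  have hw0 : 0 < w := by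
    rw [s1] at hsum0
    exact (mul_pos_iff_of_pos_left hu0).1 hsum0
  have s2 : ∑ x ∈ U, g x + 2 * ∑ z ∈ U, (d z) ^ 2 ≤ u * E := by
    have h3 : ((∑ x ∈ U, e2 H (del H U x) + 2 * ∑ z ∈ U, (dg H U z) ^ 2 : ℕ) : ℝ) ≤
        ((U.card * e2 H U : ℕ) : ℝ) := by exact_mod_cast hS2
    push_cast at h3
    exact h3
  have s3 : ∑ z ∈ U, d z = E := by
    have h3 : ((∑ z ∈ U, dg H U z : ℕ) : ℝ) = E := rfl
    rw [Nat.cast_sum] at h3
    exact h3
  have c1 : u * w ^ 2 ≤ ∑ x ∈ U, f x ^ 2 := by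
    have h3 := sq_sum_le_card_mul_sum_sq (s := U) (f := f)
    rw [s1] at h3
    have h4 : u * (u * w ^ 2) ≤ u * ∑ x ∈ U, f x ^ 2 := by
      calc u * (u * w ^ 2) = (u * w) ^ 2 := by ring
        _ ≤ _ := h3
    exact le_of_mul_le_mul_left h4 hu0
  have c2 : u * D ^ 2 ≤ ∑ z ∈ U, d z ^ 2 := by
    have h3 := sq_sum_le_card_mul_sum_sq (s := U) (f := d)
    rw [s3, hDE] at h3
    have h4 : u * (u * D ^ 2) ≤ u * ∑ x ∈ U, d x ^ 2 := by
      calc u * (u * D ^ 2) = (u * D) ^ 2 := by ring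
        _ ≤ _ := h3
    exact le_of_mul_le_mul_left h4 hu0
  have c3 : u * D ≤ ∑ z ∈ U, d z ^ 2 := by
    rw [← hDE, ← s3]
    apply Finset.sum_le_sum
    intro z _
    have h3 : dg H U z ≤ dg H U z ^ 2 := Nat.le_self_pow (by norm_num) _
    have h4 : ((dg H U z : ℕ) : ℝ) ≤ ((dg H U z ^ 2 : ℕ) : ℝ) := by exact_mod_cast h3
    rw [Nat.cast_pow] at h4
    exact h4
  have hD0 : 0 ≤ D := by
    rw [hD]
    exact div_nonneg (Nat.cast_nonneg _) hu0.le
  set p : ℝ := max (D - 1) 0 with hp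
  have claim : ∑ x ∈ U, g x ≤ u * (w * D - p ^ 2) := by
    rcases le_or_gt 1 D with h3 | h3
    · have h4 : p = D - 1 := by rw [hp]; exact max_eq_left (by linarith)
      rw [h4, hw]
      have h5 : 0 ≤ u * (D - 1) := mul_nonneg hu0.le (by linarith)
      rw [hDE] at s2
      nlinarith [s2, c2, h5]
    · have h4 : p = 0 := by rw [hp]; exact max_eq_right (by linarith)
      rw [h4, hw]
      have h5 : 0 ≤ u * (D * (1 - D)) := mul_nonneg hu0.le (mul_nonneg hD0 (by linarith))
      rw [hDE] at s2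
      nlinarith [s2, c3, h5]
  set t : ℝ := X α' β' γ' H U with htdef
  have ht1 : t = α' * (u - 2) - β' * (D - 1) + γ' + 2 := rfl
  have hst := hstar (u - 2) (D - 1) (by linarith) (by linarith) (by rw [hw] at hw0; linarith)
  have hvd : u - 2 - (D - 1) = w := by rw [hw]; ring
  rw [hvd] at hst
  set Y : W → ℝ := fun x => α * (f x - 2) * f x - β * (g x - f x) + (γ + 2) * f x with hY
  have hYsum : ∑ x ∈ U, Y x = α * (∑ x ∈ U, f x ^ 2 - 2 * ∑ x ∈ U, f x) -
      β * (∑ x ∈ U, g x - ∑ x ∈ U, f x) + (γ + 2) * ∑ x ∈ U, f x := by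
    rw [Finset.mul_sum (s := U) (f := f) (a := 2), ← Finset.sum_sub_distrib,
      ← Finset.sum_sub_distrib, Finset.mul_sum, Finset.mul_sum, Finset.mul_sum,
      ← Finset.sum_sub_distrib, ← Finset.sum_add_distrib]
    apply Finset.sum_congr rfl
    intro x _
    rw [hY]
    ring
  have hYge : t * ∑ x ∈ U, f x ≤ ∑ x ∈ U, Y x := by
    rw [hYsum, s1]
    have k1 : α * (u * w ^ 2 - 2 * (u * w)) ≤ α * (∑ x ∈ U, f x ^ 2 - 2 * (u * w)) :=
      mul_le_mul_of_nonneg_left (by linarith) hα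
    have k2 : β * (∑ x ∈ U, g x - u * w) ≤ β * (u * (w * D - p ^ 2) - u * w) :=
      mul_le_mul_of_nonneg_left (by linarith) hβ
    have k3 : u * w * (α * (w - 2) - β * (D - 1 - p ^ 2 / w) + γ + 2) =
        α * (u * w ^ 2 - 2 * (u * w)) - β * (u * (w * D - p ^ 2) - u * w) + (γ + 2) * (u * w) := by
      field_simp
      ring
    have k4 : t ≤ α * (w - 2) - β * (D - 1 - p ^ 2 / w) + γ + 2 := by
      rw [ht1]
      linarith [hst]
    have k5 : u * w * t ≤ u * w * (α * (w - 2) - β * (D - 1 - p ^ 2 / w) + γ + 2) :=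
      mul_le_mul_of_nonneg_left k4 (mul_nonneg hu0.le hw0.le)
    rw [k3] at k5
    linarith
  have hex : ∃ x ∈ U, 0 < f x ∧ t * f x ≤ Y x := by
    by_contra hcon
    push Not at hcon
    have hle : ∀ x ∈ U, Y x ≤ t * f x := by
      intro x hx
      rcases (Nat.cast_nonneg (α := ℝ) (del H U x).card).eq_or_lt with h3 | h3
      · have h4 : (del H U x).card = 0 := by
          have : ((del H U x).card : ℝ) = 0 := h3.symm
          exact_mod_cast this
        have h5 : g x = 0 := by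
          rw [hg]
          simp only
          rw [Finset.card_eq_zero.1 h4]
          simp [e2]
        have h6 : f x = 0 := h3.symm
        rw [hY]
        simp only
        rw [h5, h6]
        ring_nf
        exact le_refl _
      · exact (hcon x hx h3).le
    obtain ⟨x, hx, hfx⟩ := Finset.exists_lt_of_sum_lt (s := U) (f := fun _ => (0 : ℝ)) (g := f)
      (by simpa using hsum0)
    have hlt : ∑ x ∈ U, Y x < ∑ x ∈ U, t * f x :=
      Finset.sum_lt_sum hle ⟨x, hx, hcon x hx hfx⟩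
    rw [← Finset.mul_sum] at hlt
    linarith
  obtain ⟨x, hx, hfx, hYx⟩ := hex
  have hXdel : t ≤ X α β γ H (del H U x) := by
    have h3 : X α β γ H (del H U x) = Y x / f x := by
      have h4 : X α β γ H (del H U x) = α * (f x - 2) - β * (g x / f x - 1) + γ + 2 := rfl
      rw [h4, hY]
      simp only
      have h5 : f x ≠ 0 := hfx.ne'
      field_simp
      ring
    rw [h3, le_div_iff₀ hfx]
    exact hYx
  have hdne : (del H U x).Nonempty := by
    rw [← Finset.card_pos]
    have : (0 : ℝ) < ((del H U x).card : ℝ) := hfx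
    exact_mod_cast this
  obtain ⟨A, hA1, hA2, hA3, hA4⟩ := hV (del H U x) hdne (lt_of_lt_of_le ht hXdel)
  have hdel : ∀ y, y ∈ del H U x ↔ y ∈ U ∧ y ≠ x ∧ ¬ H.Adj x y := by
    intro y
    unfold del
    rw [Finset.mem_filter]
  have hxA : x ∉ A := fun h => ((hdel x).1 (hA1 h)).2.1 rfl
  refine ⟨insert x A, ?_, ?_, ?_, ?_⟩
  · intro y hy
    rcases Finset.mem_insert.1 hy with rfl | hy
    · exact hx
    · exact ((hdel y).1 (hA1 hy)).1
  · rw [Finset.card_insert_of_notMem hxA, hA2]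
  · intro a ha b hb
    rcases Finset.mem_insert.1 ha with rfl | ha'
    · rcases Finset.mem_insert.1 hb with rfl | hb'
      · exact H.loopless.irrefl _
      · exact ((hdel b).1 (hA1 hb')).2.2
    · rcases Finset.mem_insert.1 hb with rfl | hb'
      · intro hadj
        exact ((hdel a).1 (hA1 ha')).2.2 hadj.symm
      · exact hA3 a ha' b hb'
  · refine hXdel.trans (hA4.trans ?_)
    have hsub : unc H (del H U x) A ⊆ unc H U (insert x A) := by
      intro v hv
      unfold unc at hv ⊢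
      rw [Finset.mem_filter] at hv ⊢
      obtain ⟨hv1, hv2⟩ := hv
      have hv3 := (hdel v).1 hv1
      refine ⟨hv3.1, ?_⟩
      intro q hq
      rcases Finset.mem_insert.1 hq with rfl | hq'
      · exact ⟨hv3.2.1, fun h => hv3.2.2 h.symm⟩
      · exact hv2 q hq'
    exact_mod_cast Finset.card_le_card hsub

end Pool.Agent.SJN
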