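import Pool.Agent.SJN.Stmts

/-!
# Project SJN: module SUM
-/

set_option autoImplicit false

namespace Pool.Agent.SJN

open Finset Classical Pool.Agent.Lib_helper62.CMP

namespace SUM

theorem swap_sum {W : Type} (H : SimpleGraph W) (U : Finset W) (f : W → ℕ) :
    ∑ x ∈ U, ∑ z ∈ U.filter (fun z => H.Adj x z), f z = ∑ z ∈ U, dg H U z * f z := by
  simp only [Finset.sum_filter]
  rw [Finset.sum_comm]
  refine Finset.sum_congr rfl fun z hz => ?_
  unfold dg
  rw [Finset.card_filter, Finset.sum_mul]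
  refine Finset.sum_congr rfl fun x hx => ?_
  by_cases h : H.Adj x z
  · simp [h, h.symm]
  · have h2 : ¬ H.Adj z x := fun h' => h h'.symm
    simp [h, h2]

end SUM

theorem t_SUM (hDEL : S_DEL) : S_SUM := by
  intro W H U hT
  constructor
  · have h1 : ∑ x ∈ U, ((del H U x).card + 1 + dg H U x) = ∑ x ∈ U, U.card :=
      Finset.sum_congr rfl fun x hx => (hDEL W H U x hT hx).1
    rw [Finset.sum_add_distrib, Finset.sum_add_distrib, Finset.sum_const, Finset.sum_const,
      smul_eq_mul, smul_eq_mul, mul_one] at h1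
    unfold e2
    rw [h1]
    ring
  · have h1 : ∑ x ∈ U, (e2 H (del H U x) + 2 * ∑ z ∈ U.filter (fun z => H.Adj x z), dg H U z) ≤
        ∑ x ∈ U, e2 H U := Finset.sum_le_sum fun x hx => (hDEL W H U x hT hx).2
    rw [Finset.sum_add_distrib, Finset.sum_const, smul_eq_mul, ← Finset.mul_sum,
      SUM.swap_sum] at h1
    have h2 : ∑ z ∈ U, (dg H U z) ^ 2 = ∑ z ∈ U, dg H U z * dg H U z :=
      Finset.sum_congr rfl fun z _ => by ring
    rw [h2]
    exact h1

end Pool.Agent.SJN
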