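import Mathlib
import Pool.Agent.SJN.Stmts

/-!
# MP_c6effb_co: translations (module TRA)
-/

set_option autoImplicit false

namespace Pool.Agent.SJN

open Finset Classical Pool.Agent.Lib_helper62.CMP

namespace TRA

theorem e2_univ {V : Type} [Fintype V] (G : SimpleGraph V) :
    e2 G univ = 2 * G.edgeSet.ncard := by
  have h1 := G.sum_degrees_eq_twice_card_edges
  have h2 : G.edgeSet.ncard = G.edgeFinset.card := by
    rw [← SimpleGraph.coe_edgeFinset, Set.ncard_coe_finset]
  rw [h2, ← h1]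
  unfold e2
  refine Finset.sum_congr rfl (fun x _ => ?_)
  rw [← SimpleGraph.card_neighborFinset_eq_degree]
  unfold dg
  congr 1
  ext y
  simp

theorem e2_eq {V : Type} [Fintype V] (G : SimpleGraph V) (S : Finset V) :
    e2 G S = 2 * (G.induce (S : Set V)).edgeSet.ncard := by
  have h1 := (G.induce (S : Set V)).sum_degrees_eq_twice_card_edges
  have h2 : (G.induce (S : Set V)).edgeSet.ncard = (G.induce (S : Set V)).edgeFinset.card := by
    rw [← SimpleGraph.coe_edgeFinset, Set.ncard_coe_finset]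
  rw [h2, ← h1]
  unfold e2
  rw [← Finset.sum_coe_sort S]
  refine Finset.sum_congr rfl (fun x _ => ?_)
  rw [← SimpleGraph.card_neighborFinset_eq_degree]
  unfold dg
  symm
  refine Finset.card_bij (fun y _ => y.1) ?_ ?_ ?_
  · intro y hy
    rw [SimpleGraph.mem_neighborFinset, SimpleGraph.comap_adj] at hy
    exact mem_filter.2 ⟨y.2, hy⟩
  · intro y _ z _ hyz
    exact Subtype.ext hyz
  · intro y hy
    rw [mem_filter] at hy
    exact ⟨⟨y, hy.1⟩, by rw [SimpleGraph.mem_neighborFinset, SimpleGraph.comap_adj]; exact hy.2,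
      rfl⟩

/-- the inequality for all triangle free graphs on `Fin n`, from arbitrary hosts -/
theorem to_hosts {V : Type} {G : SimpleGraph V} {n : ℕ}
    (h : ∀ H : SimpleGraph (Fin n), ¬ H.CliqueFree 3 ∨ ∃ f : G →g Hᶜ, Function.Injective f)
    {W : Type} {H : SimpleGraph W} (hH : TF H) {T : Finset W} (hT : n ≤ T.card) :
    ∃ f : V → W, Function.Injective f ∧ (∀ x, f x ∈ T) ∧
      ∀ x y, G.Adj x y → ¬ H.Adj (f x) (f y) := by
  obtain ⟨e⟩ := Function.Embedding.nonempty_of_card_le (α := Fin n) (β := T) (by simpa using hT)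
  set g : Fin n → W := fun i => (e i : W) with hg
  have hgi : Function.Injective g := fun i j hij => e.injective (Subtype.ext hij)
  rcases h (H.comap g) with h1 | ⟨f, hf⟩
  · exfalso
    apply h1
    intro s hs
    obtain ⟨a, b, c, hab, hac, hbc, -⟩ := SimpleGraph.is3Clique_iff.1 hs
    exact hH _ _ _ hab hbc hac
  · refine ⟨fun x => g (f x), fun x y hxy => hf (hgi hxy), fun x => (e (f x)).2, ?_⟩
    intro x y hxy hadj
    have h2 := f.map_adj hxy
    rw [SimpleGraph.compl_adj] at h2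
    exact h2.2 hadj

/-- the converse -/
theorem of_hosts {V : Type} [Finite V] {G : SimpleGraph V} {n : ℕ} (hn : Nat.card V ≤ n)
    (h : ∀ (W : Type) [Nonempty W] (H : SimpleGraph W), TF H → ∀ T : Finset W, n ≤ T.card →
      ∃ f : V → W, Function.Injective f ∧ (∀ x, f x ∈ T) ∧
      ∀ x y, G.Adj x y → ¬ H.Adj (f x) (f y))
    (H : SimpleGraph (Fin n)) : ¬ H.CliqueFree 3 ∨ ∃ f : G →g Hᶜ, Function.Injective f := by
  by_cases hH : H.CliqueFree 3
  · right
    by_cases hV : IsEmpty V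
    · exact ⟨⟨fun v => (hV.false v).elim, fun {a} => (hV.false a).elim⟩,
        fun a => (hV.false a).elim⟩
    · rw [not_isEmpty_iff] at hV
      have hpos : 0 < Nat.card V := Nat.card_pos
      have : Nonempty (Fin n) := ⟨⟨0, by omega⟩⟩
      obtain ⟨f, hf1, -, hf3⟩ := h (Fin n) H
        (fun a b c hab hbc hac => by
          exact hH {a, b, c} (SimpleGraph.is3Clique_iff.2 ⟨a, b, c, hab, hac, hbc, rfl⟩))
        univ (by rw [card_univ, Fintype.card_fin])
      refine ⟨⟨f, ?_⟩, hf1⟩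
      intro a b hab
      rw [SimpleGraph.compl_adj]
      exact ⟨fun h => hab.ne (hf1 h), hf3 a b hab⟩
  · exact Or.inl hH

theorem part1 (V : Type) [Fintype V] (G : SimpleGraph V) : Sidorenko G ↔
    ∀ (W : Type) [Nonempty W] (H : SimpleGraph W), TF H → Good G H univ := by
  constructor
  · intro h W _ H hH
    refine ⟨G.edgeSet.ncard, e2_univ G, fun T hT => ?_⟩
    rw [card_univ, ← Nat.card_eq_fintype_card] at hT
    obtain ⟨f, h1, h2, h3⟩ := to_hosts h hH hT
    exact ⟨f, h1.injOn, fun x _ => h2 x, fun x _ y _ => h3 x y⟩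
  · intro h
    refine of_hosts (Nat.le_add_right _ _) ?_
    intro W _ H hH T hT
    obtain ⟨m, hm, hE⟩ := h W H hH
    rw [e2_univ] at hm
    obtain ⟨f, h1, h2, h3⟩ := hE T (by
      rw [card_univ, ← Nat.card_eq_fintype_card]
      omega)
    exact ⟨f, fun x y hxy => h1 (by simp) (by simp) hxy, fun x => h2 x (mem_univ _),
      fun x y => h3 x (mem_univ _) y (mem_univ _)⟩

theorem part2 (V : Type) [Fintype V] (G : SimpleGraph V) (S : Finset V) :
    Sidorenko (G.induce (S : Set V)) ↔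
    ∀ (W : Type) [Nonempty W] (H : SimpleGraph W), TF H → Good G H S := by
  have hc : Nat.card (S : Set V) = S.card := by
    rw [Nat.card_coe_set_eq, Set.ncard_coe_finset]
  constructor
  · intro h W hW H hH
    refine ⟨(G.induce (S : Set V)).edgeSet.ncard, e2_eq G S, fun T hT => ?_⟩
    rw [← hc] at hT
    obtain ⟨f, h1, h2, h3⟩ := to_hosts h hH hT
    refine ⟨fun x => if hx : x ∈ (S : Set V) then f ⟨x, hx⟩ else Classical.arbitrary W,
      ?_, ?_, ?_⟩
    · intro x hx y hy hxy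
      simp only [dif_pos hx, dif_pos hy] at hxy
      exact congrArg Subtype.val (h1 hxy)
    · intro x hx
      have hx' : x ∈ (S : Set V) := hx
      simp only [dif_pos hx']
      exact h2 _
    · intro x hx y hy hxy
      have hx' : x ∈ (S : Set V) := hx
      have hy' : y ∈ (S : Set V) := hy
      simp only [dif_pos hx', dif_pos hy']
      exact h3 ⟨x, hx'⟩ ⟨y, hy'⟩ hxy
  · intro h
    refine of_hosts (Nat.le_add_right _ _) ?_
    intro W _ H hH T hT
    obtain ⟨m, hm, hE⟩ := h W H hH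
    rw [e2_eq] at hm
    obtain ⟨f, h1, h2, h3⟩ := hE T (by omega)
    exact ⟨fun x => f x, fun x y hxy => Subtype.ext (h1 x.2 y.2 hxy), fun x => h2 x x.2,
      fun x y => h3 x x.2 y y.2⟩

theorem conn {V : Type} (S : Finset V) (hS : S.Nonempty) (K : SimpleGraph (S : Set V))
    (h : ∀ P ⊆ S, P.Nonempty → P ≠ S → ∃ x, ∃ _hx : x ∈ P, ∃ y, ∃ _hy : y ∈ S \ P,
      ∃ hx' : x ∈ (S : Set V), ∃ hy' : y ∈ (S : Set V), K.Adj ⟨x, hx'⟩ ⟨y, hy'⟩) :
    K.Connected := by
  obtain ⟨s, hs⟩ := hS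
  have hne : Nonempty (S : Set V) := ⟨⟨s, hs⟩⟩
  rw [SimpleGraph.connected_iff]
  refine ⟨?_, hne⟩
  intro u v
  by_contra hcon
  set P : Finset V := S.filter (fun x => ∃ hx : x ∈ (S : Set V), K.Reachable u ⟨x, hx⟩) with hP
  have hu : (u : V) ∈ P := mem_filter.2 ⟨u.2, u.2, SimpleGraph.Reachable.refl _⟩
  have hv : (v : V) ∉ P := by
    intro hv
    obtain ⟨hx, h1⟩ := (mem_filter.1 hv).2
    exact hcon h1
  obtain ⟨x, hx, y, hy, hx', hy', hxy⟩ := h P (filter_subset _ _) ⟨u, hu⟩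
    (fun he => hv (by rw [he]; exact v.2))
  rw [mem_sdiff] at hy
  apply hy.2
  obtain ⟨hx2, h1⟩ := (mem_filter.1 hx).2
  exact mem_filter.2 ⟨hy.1, hy', h1.trans hxy.reachable⟩

theorem part5 {V : Type} (G : SimpleGraph V)
    (hG : ¬ (SimpleGraph.pathGraph 4).IsIndContained G) : P4f G := by
  intro a b c d hab hbc hcd hac hbd
  by_contra had
  apply hG
  have n1 : a ≠ b := hab.ne
  have n2 : b ≠ c := hbc.ne
  have n3 : c ≠ d := hcd.ne
  have n4 : a ≠ c := fun h => had (h ▸ hcd)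
  have n5 : b ≠ d := fun h => had (h ▸ hab)
  have n6 : a ≠ d := fun h => hac (h ▸ hcd.symm)
  refine ⟨⟨⟨![a, b, c, d], ?_⟩, ?_⟩⟩
  · intro i j hij
    fin_cases i <;> fin_cases j <;> simp_all
  · intro i j
    have e1 := hab.symm
    have e2 := hbc.symm
    have e3 := hcd.symm
    have e4 : ¬ G.Adj c a := fun h => hac h.symm
    have e5 : ¬ G.Adj d b := fun h => hbd h.symm
    have e6 : ¬ G.Adj d a := fun h => had h.symm
    fin_cases i <;> fin_cases j <;> simp [SimpleGraph.pathGraph_adj, hab, hbc, hcd, hac, hbd, had, e1, e2, e3, e4, e5, e6]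

end TRA

theorem t_TRA : S_TRA := by
  refine ⟨TRA.part1, TRA.part2, ?_, ?_, ?_⟩
  · intro V G S hS hC
    apply TRA.conn S hS
    intro P hP hne hPS
    obtain ⟨x, hx, y, hy, hxy⟩ := hC P hP hne hPS
    exact ⟨x, hx, y, hy, hP hx, (mem_sdiff.1 hy).1, hxy⟩
  · intro V G S hS hC
    apply TRA.conn S hS
    intro P hP hne hPS
    obtain ⟨x, hx, y, hy, hxy⟩ := hC P hP hne hPS
    refine ⟨x, hx, y, hy, hP hx, (mem_sdiff.1 hy).1, ?_⟩
    rw [SimpleGraph.compl_adj]
    refine ⟨fun h => ?_, hxy⟩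
    have h1 : x = y := congrArg Subtype.val h
    exact (mem_sdiff.1 hy).2 (h1 ▸ hx)
  · intro V G hG
    exact TRA.part5 G hG

end Pool.Agent.SJN
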