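import Pool.Agent.SJN.Stmts

/-!
# SJN, module TRJ: the recursion for the number of survivors
-/

set_option autoImplicit false

namespace Pool.Agent.SJN

open Finset Classical Pool.Agent.Lib_helper62.CMP

namespace TRJ

variable {W : Type}

lemma run_pos : ∀ (j u D : ℕ), 0 < run (j + 1) u D → 256 + D < u := by
  intro j
  induction j with
  | zero =>
    intro u D h
    simp only [run] at h
    omega
  | succ j ih =>
    intro u D h
    simp only [run] at h
    split_ifs at h with hc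
    · have := ih _ _ h
      omega
    · omega

lemma valid_zero (H : SimpleGraph W) : Valid H 0 1 0 0 := by
  intro U _ _
  refine ⟨∅, Finset.empty_subset _, rfl, fun x hx => by simp at hx, ?_⟩
  have h : unc H U ∅ = U := by
    unfold unc
    simp
  rw [h, X]
  linarith

/-- the numerical part of the step -/
lemma step_num {α β σ w δ δ1 : ℝ} (hα : 0 ≤ α) (hβ : 0 ≤ β) (hσ : 0 ≤ σ) (hσ2 : σ ≤ 1 / 2)
    (hw : 0 < w) (hσw : σ * w = max δ 0) (hδ1 : δ - σ * max δ 0 ≤ δ1)
    (hinv : β ≤ α ∨ β * max δ1 0 ≤ α * (w - 2 - δ1)) :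
    0 ≤ (1 - σ) * (α - β * σ) + β * σ ^ 3 := by
  rcases hinv with h | h
  · have h1 : 0 ≤ α - β * σ := by nlinarith
    have h2 : 0 ≤ (1 - σ) * (α - β * σ) := mul_nonneg (by linarith) h1
    positivity
  · rcases le_or_gt δ 0 with hδ | hδ
    · have h0 : σ = 0 := by
        rw [max_eq_right hδ] at hσw
        rcases mul_eq_zero.1 hσw with h3 | h3
        · exact h3
        · exact absurd h3 hw.ne'
      rw [h0]
      simpa using hα
    · rw [max_eq_left hδ.le] at hσw hδ1
      have h3 : σ * (1 - σ) * w ≤ δ1 := by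
        have : σ * (1 - σ) * w = δ - σ * δ := by rw [← hσw]; ring
        linarith
      have h4 : 0 ≤ δ1 := le_trans (mul_nonneg (mul_nonneg hσ (by linarith)) hw.le) h3
      rw [max_eq_left h4] at h
      have h5 : (α + β) * (σ * (1 - σ)) * w ≤ α * w := by
        have : (α + β) * (σ * (1 - σ) * w) ≤ (α + β) * δ1 :=
          mul_le_mul_of_nonneg_left h3 (by linarith)
        nlinarith
      have h6 : (α + β) * (σ * (1 - σ)) ≤ α := le_of_mul_le_mul_right h5 hw
      have h7 : β * σ * (1 - σ) ≤ α * (1 - σ + σ ^ 2) := by nlinarith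
      have h8 : 0 < 1 - σ + σ ^ 2 := by nlinarith
      have h9 : 0 ≤ ((1 - σ) * (α - β * σ) + β * σ ^ 3) * (1 - σ + σ ^ 2) := by
        have h10 : 0 ≤ (1 - σ) * (α * (1 - σ + σ ^ 2) - β * σ * (1 - σ)) :=
          mul_nonneg (by linarith) (by linarith)
        have h11 : ((1 - σ) * (α - β * σ) + β * σ ^ 3) * (1 - σ + σ ^ 2) =
            (1 - σ) * (α * (1 - σ + σ ^ 2) - β * σ * (1 - σ)) + β * σ ^ 5 := by ring
        rw [h11]
        positivity
      exact nonneg_of_mul_nonneg_left h9 h8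

lemma star {β σ v x : ℝ} (hβ : 0 ≤ β) (hσ : 0 ≤ σ) (hx : x < v) :
    0 ≤ β * ((max x 0) ^ 2 / (v - x) + σ ^ 2 * (v - x) - 2 * σ * x) := by
  apply mul_nonneg hβ
  have hv : 0 < v - x := by linarith
  rcases le_or_gt x 0 with h | h
  · rw [max_eq_right h]
    have h1 : 0 ≤ σ ^ 2 * (v - x) := by positivity
    have h2 : 0 ≤ -(2 * σ * x) := by nlinarith
    simp only [ne_eq, OfNat.ofNat_ne_zero, not_false_eq_true, zero_pow, zero_div]
    linarith
  · rw [max_eq_left h.le]
    have h1 : x ^ 2 / (v - x) + σ ^ 2 * (v - x) - 2 * σ * x = (x - σ * (v - x)) ^ 2 / (v - x) := by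
      field_simp
      ring
    rw [h1]
    positivity

lemma core (hSTP : S_STP) (H : SimpleGraph W) (hH : TF H) : ∀ (j u D : ℕ), 0 < run (j + 1) u D →
    ∃ α β γ : ℝ, 0 ≤ α ∧ 0 ≤ β ∧ γ ≤ -2 ∧ β - α + γ ≤ -2 ∧ Valid H (j + 1) α β γ ∧
      (run (j + 1) u D : ℝ) / 256 ≤ α * ((u : ℝ) / 256 - 2) - β * ((D : ℝ) / 256 - 1) + γ + 2 ∧
      (β ≤ α ∨ β * max ((D : ℝ) / 256 - 1) 0 ≤ α * ((u : ℝ) / 256 - 1 - (D : ℝ) / 256)) := by
  intro j
  induction j with
  | zero =>
    intro u D h
    have h1 := run_pos 0 u D h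
    refine ⟨1, 1, -2, by norm_num, by norm_num, le_refl _, by norm_num, ?_, ?_, Or.inl le_rfl⟩
    · refine hSTP W H 0 1 0 0 1 1 (-2) hH (by norm_num) le_rfl (valid_zero H)
        (fun v δ _ _ _ => ?_) le_rfl (by norm_num)
      linarith
    · have h2 : run (0 + 1) u D = u - 256 - D := rfl
      have h3 : ((u - 256 - D : ℕ) : ℝ) = (u : ℝ) - 256 - D := by
        rw [Nat.cast_sub (by omega), Nat.cast_sub (by omega)]
        norm_num
      rw [h2, h3]
      linarith
  | succ j ih =>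
    intro u D h
    have hu := run_pos (j + 1) u D h
    have hrun : run (j + 1 + 1) u D = if 2 * (D - 256) ≤ u - 256 - D then
        run (j + 1) (u - 256 - D) (D - (D - 256) * (D - 256) / (u - 256 - D)) else 0 := rfl
    have hc : 2 * (D - 256) ≤ u - 256 - D := by
      by_contra hc
      rw [hrun, if_neg hc] at h
      exact lt_irrefl _ h
    rw [hrun, if_pos hc] at h ⊢
    obtain ⟨u1, hu1⟩ : ∃ u1, u1 = u - 256 - D := ⟨_, rfl⟩
    obtain ⟨q, hq⟩ : ∃ q, q = (D - 256) * (D - 256) / u1 := ⟨_, rfl⟩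
    rw [← hu1] at h hc ⊢
    rw [← hq] at h ⊢
    have hu1' := run_pos j u1 (D - q) h
    obtain ⟨α, β, γ, hα, hβ, hγ, hβα, hval, hrn, hinv⟩ := ih u1 (D - q) h
    -- reals
    set e : ℕ := D - 256 with he
    set w : ℝ := (u1 : ℝ) / 256 with hw
    set δ : ℝ := (D : ℝ) / 256 - 1 with hδ
    have hu1pos : 0 < u1 := by omega
    have hwpos : 0 < w := by
      rw [hw]
      have : (0 : ℝ) < u1 := by exact_mod_cast hu1pos
      exact div_pos this (by norm_num)
    have hu1r : (u1 : ℝ) = (u : ℝ) - 256 - D := by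
      rw [hu1, Nat.cast_sub (by omega), Nat.cast_sub (by omega)]
      norm_num
    have her : (e : ℝ) = 256 * max δ 0 := by
      rcases le_total 256 D with h1 | h1
      · have h2 : (e : ℝ) = (D : ℝ) - 256 := by
          rw [he, Nat.cast_sub h1]
          norm_num
        have h3 : 0 ≤ δ := by
          rw [hδ]
          have : (256 : ℝ) ≤ D := by exact_mod_cast h1
          linarith
        rw [max_eq_left h3, h2, hδ]
        ring
      · have h2 : e = 0 := by omega
        have h3 : δ ≤ 0 := by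
          rw [hδ]
          have : (D : ℝ) ≤ 256 := by exact_mod_cast h1
          linarith
        rw [max_eq_right h3, h2]
        norm_num
    set σ : ℝ := max δ 0 / w with hσ
    have hσ0 : 0 ≤ σ := div_nonneg (le_max_right _ _) hwpos.le
    have hσw : σ * w = max δ 0 := div_mul_cancel₀ _ hwpos.ne'
    have hσ2 : σ ≤ 1 / 2 := by
      rw [hσ, div_le_iff₀ hwpos]
      have h1 : 2 * (e : ℝ) ≤ u1 := by exact_mod_cast hc
      rw [her] at h1
      have h2 : (u1 : ℝ) = 256 * w := by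
        rw [hw]
        ring
      rw [h2] at h1
      linarith
    -- the floor
    have hqr : (q : ℝ) ≤ 256 * (σ * max δ 0) := by
      have h1 : (q : ℝ) ≤ ((e * e : ℕ) : ℝ) / (u1 : ℝ) := by
        rw [hq]
        exact Nat.cast_div_le
      refine h1.trans (le_of_eq ?_)
      push_cast
      rw [her, hσ]
      have h2 : (u1 : ℝ) = 256 * w := by
        rw [hw]
        ring
      rw [h2]
      field_simp
    have hqD : q ≤ D := by
      have h1 : q ≤ e := by
        rw [hq]
        apply Nat.div_le_of_le_mul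
        apply Nat.mul_le_mul_right
        omega
      omega
    have hD1 : ((D - q : ℕ) : ℝ) = (D : ℝ) - q := Nat.cast_sub hqD
    set δ1 : ℝ := ((D - q : ℕ) : ℝ) / 256 - 1 with hδ1
    have hδ1' : δ - σ * max δ 0 ≤ δ1 := by
      rw [hδ1, hD1, hδ]
      rw [hδ] at hqr
      linarith
    have hw1 : (u1 : ℝ) / 256 - 1 - ((D - q : ℕ) : ℝ) / 256 = w - 2 - δ1 := by
      rw [hδ1, hw]
      ring
    rw [hw1] at hinv
    have hA := step_num hα hβ hσ0 hσ2 hwpos hσw hδ1' hinv
    have hβ' : 0 ≤ α + β * (1 - 2 * σ - σ ^ 2) := by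
      have h1 : 0 ≤ (α + β * (1 - 2 * σ - σ ^ 2)) * (1 - σ) := by
        have h2 : (α + β * (1 - 2 * σ - σ ^ 2)) * (1 - σ) =
            ((1 - σ) * (α - β * σ) + β * σ ^ 3) + β * (1 - 2 * σ) := by ring
        rw [h2]
        have h3 : 0 ≤ β * (1 - 2 * σ) := mul_nonneg hβ (by linarith)
        linarith
      exact nonneg_of_mul_nonneg_left h1 (by linarith)
    have hα'' : σ * (α + β * (1 - 2 * σ - σ ^ 2)) ≤ α - β * σ ^ 2 := by
      have h2 : α - β * σ ^ 2 - σ * (α + β * (1 - 2 * σ - σ ^ 2)) =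
          (1 - σ) * (α - β * σ) + β * σ ^ 3 := by ring
      linarith
    have hα' : 0 ≤ α - β * σ ^ 2 := le_trans (mul_nonneg hσ0 hβ') hα''
    refine ⟨α - β * σ ^ 2, α + β * (1 - 2 * σ - σ ^ 2), γ - 2 * α, hα', hβ', by linarith, ?_, ?_,
      ?_, ?_⟩
    · have h1 : 0 ≤ β * σ := mul_nonneg hβ hσ0
      have h2 : α + β * (1 - 2 * σ - σ ^ 2) - (α - β * σ ^ 2) + (γ - 2 * α) =
          β - 2 * (β * σ) + γ - 2 * α := by ring
      rw [h2]
      linarith
    · refine hSTP W H (j + 1) α β γ _ _ _ hH hα hβ hval (fun v x _ _ hx => ?_) (by linarith) ?_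
      · have h1 := star hβ hσ0 hx
        have h2 : α * (v - x - 2) - β * (x - max x 0 ^ 2 / (v - x)) + γ -
            ((α - β * σ ^ 2) * v - (α + β * (1 - 2 * σ - σ ^ 2)) * x + (γ - 2 * α)) =
            β * ((max x 0) ^ 2 / (v - x) + σ ^ 2 * (v - x) - 2 * σ * x) := by ring
        linarith
      · have h1 : 0 ≤ β * σ := mul_nonneg hβ hσ0
        have h2 : α + β * (1 - 2 * σ - σ ^ 2) - (α - β * σ ^ 2) + (γ - 2 * α) =
            β - 2 * (β * σ) + γ - 2 * α := by ring
        rw [h2]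
        linarith
    · refine hrn.trans ?_
      have hV : (u : ℝ) / 256 - 2 = w + δ := by
        rw [hw, hδ, hu1r]
        ring
      rw [hV]
      have h1 : (α - β * σ ^ 2) * (w + δ) - (α + β * (1 - 2 * σ - σ ^ 2)) * δ + (γ - 2 * α) + 2 =
          α * (w - 2) - β * (δ + σ * (σ * w) - 2 * σ * δ) + γ + 2 := by ring
      rw [h1, hσw]
      have h2 : δ + σ * max δ 0 - 2 * σ * δ ≤ δ1 := by
        refine le_trans ?_ hδ1'
        rcases le_or_gt δ 0 with h3 | h3
        · have h4 : σ = 0 := by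
            rw [hσ, max_eq_right h3, zero_div]
          rw [h4]
          simp
        · rw [max_eq_left h3.le]
          linarith
      have h3 : β * (δ + σ * max δ 0 - 2 * σ * δ) ≤ β * δ1 := mul_le_mul_of_nonneg_left h2 hβ
      linarith
    · right
      have h1 : (u : ℝ) / 256 - 1 - (D : ℝ) / 256 = w := by
        rw [hw, hu1r]
        ring
      rw [h1, ← hσw]
      have h2 := mul_le_mul_of_nonneg_right hα'' hwpos.le
      have h3 : (α + β * (1 - 2 * σ - σ ^ 2)) * (σ * w) =
          σ * (α + β * (1 - 2 * σ - σ ^ 2)) * w := by ring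
      rw [h3]
      exact h2

end TRJ

/-- **TRJ** -/
theorem t_TRJ (hSTP : S_STP) : S_TRJ := by
  intro W H T n d s N hH hn hd hs hrun
  obtain ⟨j, rfl⟩ : ∃ j, s = j + 1 := ⟨s - 1, by omega⟩
  have hpos : 0 < run (j + 1) (256 * n) (256 * d) := by omega
  have h1 := TRJ.run_pos j _ _ hpos
  obtain ⟨α, β, γ, hα, hβ, _, _, hval, hv, _⟩ := TRJ.core hSTP H hH j _ _ hpos
  have hT : T.Nonempty := by
    rw [← Finset.card_pos]
    omega
  have hT' : (0 : ℝ) < T.card := by
    exact_mod_cast Finset.card_pos.2 hT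
  have hn' : (n : ℝ) ≤ T.card := by exact_mod_cast hn
  have he2 : (e2 H T : ℝ) / T.card ≤ d := by
    rw [div_le_iff₀ hT']
    have h2 : e2 H T ≤ T.card * d := by
      unfold e2
      exact Finset.sum_le_card_nsmul _ _ _ fun x hx => hd x hx
    have h3 : (e2 H T : ℝ) ≤ ((T.card * d : ℕ) : ℝ) := by exact_mod_cast h2
    push_cast at h3
    linarith
  have hX : (run (j + 1) (256 * n) (256 * d) : ℝ) / 256 ≤ X α β γ H T := by
    refine hv.trans ?_
    unfold X
    push_cast
    have h2 : α * ((n : ℝ) - 2) ≤ α * ((T.card : ℝ) - 2) :=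
      mul_le_mul_of_nonneg_left (by linarith) hα
    have h3 : β * ((e2 H T : ℝ) / T.card - 1) ≤ β * ((d : ℝ) - 1) :=
      mul_le_mul_of_nonneg_left (by linarith) hβ
    have e1 : (256 * (n : ℝ)) / 256 = n := by ring
    have e2' : (256 * (d : ℝ)) / 256 = d := by ring
    rw [e1, e2']
    linarith
  have hN : (N : ℝ) < X α β γ H T := by
    refine lt_of_lt_of_le ?_ hX
    rw [lt_div_iff₀ (by norm_num)]
    have : ((256 * N : ℕ) : ℝ) < run (j + 1) (256 * n) (256 * d) := by exact_mod_cast hrun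
    push_cast at this
    linarith
  obtain ⟨A, hA, hAc, hAi, hAu⟩ := hval T hT (lt_of_le_of_lt (Nat.cast_nonneg N) hN)
  refine ⟨A, hA, hAc, hAi, ?_⟩
  have h2 : (N : ℝ) < ((unc H T A).card : ℝ) := lt_of_lt_of_le hN hAu
  have h3 : N < (unc H T A).card := by exact_mod_cast h2
  omega

end Pool.Agent.SJN
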