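import Mathlib
import Pool.Agent.SJN.Stmts

/-! # UNI: Sidorenko's inequality is inherited by disjoint unions -/

set_option autoImplicit false

namespace Pool.Agent.SJN

open Finset Classical Pool.Agent.Lib_helper62.CMP

theorem t_UNI (hTRA : S_TRA) (V : Type) [Finite V] (G : SimpleGraph V) (S : Set V)
    (hS : ∀ x ∈ S, ∀ y ∉ S, ¬ G.Adj x y) (h1 : Sidorenko (G.induce S))
    (h2 : Sidorenko (G.induce Sᶜ)) : Sidorenko G := by
  obtain ⟨t1, t2, -, -, -⟩ := hTRA
  have : Fintype V := Fintype.ofFinite V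
  have hA : ((S.toFinset : Finset V) : Set V) = S := Set.coe_toFinset S
  have hB : ((Sᶜ.toFinset : Finset V) : Set V) = Sᶜ := Set.coe_toFinset Sᶜ
  rw [← hA] at h1
  rw [← hB] at h2
  rw [t1]
  intro W _ H hH
  have g1 := (t2 V G S.toFinset).1 h1 W H hH
  have g2 := (t2 V G Sᶜ.toFinset).1 h2 W H hH
  have hd : Disjoint S.toFinset Sᶜ.toFinset := by
    rw [Finset.disjoint_left]
    intro x hx hx'
    rw [Set.mem_toFinset] at hx hx'
    exact hx' hx
  have hj := good_union (G := G) (H := H) hd (by
    intro x hx y hy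
    rw [Set.mem_toFinset] at hx hy
    exact hS x hx y hy) g1 g2
  have hu : S.toFinset ∪ Sᶜ.toFinset = Finset.univ := by
    ext x
    rw [Finset.mem_union, Set.mem_toFinset, Set.mem_toFinset]
    constructor
    · intro _
      exact Finset.mem_univ x
    · intro _
      exact Classical.em (x ∈ S)
  rw [← hu]
  exact hj

end Pool.Agent.SJN
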